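import Pool.Agent.Run7.h934.AD.LeafMain
import Pool.Agent.Y321.PJ.Main
import Pool.Agent.Y331.EP.Man

/-!
# Closures of the stable leaves of Anosov diffeomorphisms (helper934)
-/

set_option autoImplicit false
set_option linter.unusedSectionVars false

open scoped Manifold ContDiff Topology
open Set Filter

namespace Pool.Agent.Run7.h934.AD

open Pool.Agent.H789R2.AN Pool.Agent.H721R2 Pool.Agent.Y321.PJ

/-- the stable leaf -/
def stL {M : Type*} [TopologicalSpace M] (f : M → M) (x : M) : Set M :=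
  {y | Tendsto (fun n : ℕ => (f^[n] x, f^[n] y)) atTop (𝓝ˢ (diagonal M))}

theorem stL_eq {X : Type*} [MetricSpace X] [CompactSpace X] (f : X ≃ₜ X) (x : X) :
    stL f x = Lf f x := by
  ext y
  exact Pool.Agent.Y331.EP.asym_tendsto f x y

section main

variable {E : Type*} [NormedAddCommGroup E] [NormedSpace ℝ E] [FiniteDimensional ℝ E]
  {M : Type*} [TopologicalSpace M] [T2Space M] [CompactSpace M] [ConnectedSpace M]
  [ChartedSpace E M] [IsManifold 𝓘(ℝ, E) ∞ M]

theorem man_leaf (f : Diffeomorph 𝓘(ℝ, E) 𝓘(ℝ, E) M M 1)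
    (Es Eu : ∀ x : M, Submodule ℝ (TangentSpace 𝓘(ℝ, E) x)) (hA : IsAnosov f Es Eu) :
    List.TFAE [TopTransitive f,
      ∀ x y, y ∈ closure (stL f x) → x ∈ closure (stL f y),
      ∀ x ∈ Function.periodicPts f, ∀ y ∈ Function.periodicPts f,
        y ∈ closure (stL f x) → x ∈ closure (stL f y),
      (interior (closure {x | ∀ y ∈ closure (stL f x), x ∈ closure (stL f y)})).Nonempty,
      ∀ x, (interior (closure (stL f x))).Nonempty] ∧
    ((∀ (x : M) (U : Set M), IsOpen U → U.Nonempty → ∃ φ : M ≃ₜ M,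
      (∀ y z, z ∈ stL f y ↔ φ z ∈ stL f (φ y)) ∧ φ x ∈ U) → TopTransitive f) := by
  obtain ⟨m, e, he, hemb, hinj⟩ := exists_embedding_euclidean_of_compact (I := 𝓘(ℝ, E)) (M := M)
  let _ : MetricSpace M := hemb.isEmbedding.comapMetricSpace e
  have hiso : ∀ x y : M, dist x y = ‖e x - e y‖ := fun x y => dist_eq_norm (e x) (e y)
  have he1 : ContMDiff 𝓘(ℝ, E) (𝓡 m) 1 e := he.of_le (by simp)
  obtain ⟨N, S, hN, hg⟩ := exists_sys1 hiso he1 hinj f Es Eu hA
  have hL : ∀ x, stL f x = Lf f.toHomeomorph x := fun x => stL_eq f.toHomeomorph x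
  have h1 := leaf_tfae S f.toHomeomorph hN hg
  have h2 := leaf_hom S f.toHomeomorph hN hg
  simp only [hL]
  refine ⟨h1, fun h => h2 fun x U hU hUn => ?_⟩
  obtain ⟨φ, h3, h4⟩ := h x U hU hUn
  exact ⟨φ, fun y z => h3 y z, h4⟩

end main

end Pool.Agent.Run7.h934.AD
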