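import Pool.Agent.Run7.h934.AD.Lip
import Pool.Agent.Y321.PJ.Main

/-!
# Hölder functions have the Walters property (helper934)
-/

set_option autoImplicit false
set_option linter.unusedSectionVars false

open scoped Manifold ContDiff Topology
open Filter Set Metric

namespace Pool.Agent.Run7.h934.AD

open Pool.Agent.H789R2.AN Pool.Agent.H721R2 Pool.Agent.Y321.PJ Pool.Agent.TH289

section abs

variable {X : Type*} [MetricSpace X] {E : Type*} [NormedAddCommGroup E] [NormedSpace ℝ E]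

/-- Hölder condition at small distances -/
def Hol (ψ : X → ℝ) (L α r : ℝ) : Prop := ∀ x y, dist x y < r → |ψ x - ψ y| ≤ L * dist x y ^ α

theorem geo_sum_le {q : ℝ} (h0 : 0 ≤ q) (h1 : q < 1) (n : ℕ) :
    ∑ i ∈ Finset.range n, q ^ i ≤ 1 / (1 - q) := by
  have := Summable.sum_le_tsum (f := fun i : ℕ => q ^ i) (Finset.range n)
    (fun i _ => by positivity) (summable_geometric_of_lt_one h0 h1)
  rwa [tsum_geometric_of_lt_one h0 h1, ← one_div] at this

/-- Walters property of Hölder functions for the hyperbolic iterate. -/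
theorem wal_hol_g [CompactSpace X] (S : HypSys X E) {ψ : X → ℝ} {L α r : ℝ} (hL : 0 ≤ L)
    (hα : 0 < α) (hα1 : α ≤ 1) (hr : 0 < r) (hψ : Hol ψ L α r) : Wal S.g ψ := by
  intro η hη
  obtain ⟨c, h⟩ := exists_LP S
  obtain ⟨ε₁, hε₁, h1⟩ := contrS_iter S
  obtain ⟨ε₂, hε₂, h2⟩ := contrS_iter S.symm
  set q : ℝ := (1 / 2) ^ α with hq
  have hq0 : 0 < q := Real.rpow_pos_of_pos (by norm_num) _
  have hq1 : q < 1 := Real.rpow_lt_one (by norm_num) (by norm_num) hα
  have hQ : 0 < 1 / (1 - q) := by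
    have : 0 < 1 - q := by linarith
    positivity
  -- the size
  obtain ⟨ρ, hρ0, hρ1, hρ2, hρr, hρ3⟩ : ∃ ρ : ℝ, 0 < ρ ∧ ρ ≤ ε₁ / 2 ∧ ρ ≤ ε₂ / 2 ∧ ρ < r ∧
      L * (2 * (2 * ρ) ^ α * (1 / (1 - q))) ≤ η := by
    have ht : Tendsto (fun ρ : ℝ => L * (2 * (2 * ρ) ^ α * (1 / (1 - q)))) (𝓝 0)
        (𝓝 (L * (2 * (2 * 0) ^ α * (1 / (1 - q))))) := by
      have hc : Continuous fun ρ : ℝ => L * (2 * (2 * ρ) ^ α * (1 / (1 - q))) := by
        have : Continuous fun ρ : ℝ => (2 * ρ) ^ α :=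
          (continuous_const.mul continuous_id).rpow_const fun _ => Or.inr hα.le
        fun_prop
      exact hc.tendsto 0
    rw [mul_zero, Real.zero_rpow hα.ne', mul_zero, zero_mul, mul_zero] at ht
    have h3 := (ht.eventually (ge_mem_nhds hη)).filter_mono (nhdsWithin_le_nhds (s := Ioi 0))
    have h4 : ∀ᶠ ρ : ℝ in 𝓝[>] 0, ρ < min (min (ε₁ / 2) (ε₂ / 2)) r :=
      (gt_mem_nhds (lt_min (lt_min (half_pos hε₁) (half_pos hε₂)) hr)).filter_mono
        nhdsWithin_le_nhds
    obtain ⟨ρ, h5, h6, h7⟩ := (h3.and (h4.and self_mem_nhdsWithin)).exists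
    have h8 : ρ < min (ε₁ / 2) (ε₂ / 2) := h6.trans_le (min_le_left _ _)
    exact ⟨ρ, h7, (h8.trans_le (min_le_left _ _)).le, (h8.trans_le (min_le_right _ _)).le,
      h6.trans_le (min_le_right _ _), h5⟩
  obtain ⟨δ, hδ, hlp⟩ := h.lp ρ hρ0
  refine ⟨min (δ / 2) ρ, lt_min (half_pos hδ) hρ0, fun n x y hxy => ?_⟩
  rcases Nat.eq_zero_or_pos n with h0 | h0
  · subst h0
    simpa [birkhoffSum] using hη.le
  have hxy' : ∀ k < n, dist (S.g^[k] x) (S.g^[k] y) ≤ ρ := fun k hk =>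
    (hxy k hk).trans (min_le_right _ _)
  have hd : dist x y < δ := by
    have := (hxy 0 h0).trans (min_le_left _ _)
    simp only [Function.iterate_zero, id_eq] at this
    linarith
  obtain ⟨z, hz1, hz2⟩ := hlp x y hd
  -- forward estimate
  have hf : ∀ k, dist (S.g^[k] x) (S.g^[k] z) ≤ (1 / 2) ^ k * ρ := by
    intro k
    have h3 := h1 x z (fun j => (hz1 j).trans (by linarith)) k
    exact h3.trans (mul_le_mul_of_nonneg_left (hz1 0) (by positivity))
  -- backward estimate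
  have hclose : ∀ k < n, dist (S.g^[k] y) (S.g^[k] z) ≤ 2 * ρ := by
    intro k hk
    have h3 := hz1 k
    have h4 := hxy' k hk
    have := dist_triangle_left (S.g^[k] y) (S.g^[k] z) (S.g^[k] x)
    linarith
  have hsr : S.symm.SRel ε₂ (S.g^[n - 1] y) (S.g^[n - 1] z) := by
    intro j
    show dist (S.g.symm^[j] (S.g^[n - 1] y)) (S.g.symm^[j] (S.g^[n - 1] z)) ≤ ε₂
    rcases le_total j (n - 1) with hj | hj
    · have e : ∀ w : X, S.g.symm^[j] (S.g^[n - 1] w) = S.g^[n - 1 - j] w := by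
        intro w
        have : S.g^[n - 1] w = S.g^[j] (S.g^[n - 1 - j] w) := by
          rw [← Function.iterate_add_apply]; congr 1; omega
        rw [this, iterL]
      rw [e, e]
      have := hclose (n - 1 - j) (by omega)
      linarith
    · obtain ⟨i, rfl⟩ := Nat.exists_eq_add_of_le hj
      rw [Nat.add_comm, Function.iterate_add_apply, iterL, Function.iterate_add_apply, iterL]
      have := hz2 i
      linarith
  have hb : ∀ k < n, dist (S.g^[k] y) (S.g^[k] z) ≤ (1 / 2) ^ (n - 1 - k) * (2 * ρ) := by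
    intro k hk
    have h3 := h2 _ _ hsr (n - 1 - k)
    have e : ∀ w : X, S.g.symm^[n - 1 - k] (S.g^[n - 1] w) = S.g^[k] w := by
      intro w
      have : S.g^[n - 1] w = S.g^[n - 1 - k] (S.g^[k] w) := by
        rw [← Function.iterate_add_apply]; congr 1; omega
      rw [this, iterL]
    have h4 : dist (S.g.symm^[n - 1 - k] (S.g^[n - 1] y)) (S.g.symm^[n - 1 - k] (S.g^[n - 1] z)) ≤
        (1 / 2) ^ (n - 1 - k) * dist (S.g^[n - 1] y) (S.g^[n - 1] z) := h3
    rw [e, e] at h4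
    exact h4.trans (mul_le_mul_of_nonneg_left (hclose (n - 1) (by omega)) (by positivity))
  have hpow : ∀ (k : ℕ) (s : ℝ), 0 ≤ s → ((1 / 2 : ℝ) ^ k * s) ^ α = q ^ k * s ^ α := by
    intro k s hs
    rw [Real.mul_rpow (by positivity) hs, hq, ← Real.rpow_natCast, ← Real.rpow_natCast,
      ← Real.rpow_mul (by norm_num), ← Real.rpow_mul (by norm_num), mul_comm (k : ℝ) α]
  rw [birkhoffSum, birkhoffSum, ← Finset.sum_sub_distrib]
  refine (Finset.abs_sum_le_sum_abs _ _).trans ?_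
  calc ∑ k ∈ Finset.range n, |ψ (S.g^[k] x) - ψ (S.g^[k] y)|
      ≤ ∑ k ∈ Finset.range n, L * (q ^ k * (2 * ρ) ^ α + q ^ (n - 1 - k) * (2 * ρ) ^ α) := by
        apply Finset.sum_le_sum
        intro k hk
        rw [Finset.mem_range] at hk
        refine (hψ _ _ ((hxy' k hk).trans_lt hρr)).trans (mul_le_mul_of_nonneg_left ?_ hL)
        have h3 := hf k
        have h4 := hb k hk
        have h5 := dist_triangle_right (S.g^[k] x) (S.g^[k] y) (S.g^[k] z)
        have h6 : dist (S.g^[k] x) (S.g^[k] y) ≤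
            (1 / 2) ^ k * (2 * ρ) + (1 / 2) ^ (n - 1 - k) * (2 * ρ) := by
          have : (1 / 2 : ℝ) ^ k * ρ ≤ (1 / 2) ^ k * (2 * ρ) :=
            mul_le_mul_of_nonneg_left (by linarith) (by positivity)
          linarith
        refine (Real.rpow_le_rpow dist_nonneg h6 hα.le).trans ?_
        refine (Real.rpow_add_le_add_rpow (by positivity) (by positivity) hα.le hα1).trans ?_
        rw [hpow _ _ (by positivity), hpow _ _ (by positivity)]
    _ = L * ((2 * ρ) ^ α * (∑ k ∈ Finset.range n, q ^ k +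
          ∑ k ∈ Finset.range n, q ^ (n - 1 - k))) := by
        rw [← Finset.mul_sum, Finset.sum_add_distrib, ← Finset.sum_mul, ← Finset.sum_mul]
        ring
    _ ≤ L * (2 * (2 * ρ) ^ α * (1 / (1 - q))) := by
        apply mul_le_mul_of_nonneg_left _ hL
        have h3 := geo_sum_le hq0.le hq1 n
        have h4 : ∑ k ∈ Finset.range n, q ^ (n - 1 - k) ≤ 1 / (1 - q) := by
          rw [Finset.sum_range_reflect (fun i : ℕ => q ^ i) n]
          exact h3
        have h5 : 0 ≤ (2 * ρ) ^ α := Real.rpow_nonneg (by linarith) _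
        nlinarith
    _ ≤ η := hρ3

theorem Hol.continuous {ψ : X → ℝ} {L α r : ℝ} (hα : 0 < α) (hr : 0 < r) (h : Hol ψ L α r) :
    Continuous ψ := by
  rw [continuous_iff_continuousAt]
  intro x
  rw [ContinuousAt, tendsto_iff_dist_tendsto_zero]
  have h1 : Tendsto (fun y => L * dist y x ^ α) (𝓝 x) (𝓝 0) := by
    have hc : Continuous fun y : X => L * dist y x ^ α :=
      continuous_const.mul ((continuous_id.dist continuous_const).rpow_const
        fun _ => Or.inr hα.le)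
    have := hc.tendsto x
    rwa [dist_self, Real.zero_rpow hα.ne', mul_zero] at this
  refine squeeze_zero' (Eventually.of_forall fun _ => dist_nonneg) ?_ h1
  filter_upwards [ball_mem_nhds x hr] with y hy
  rw [Real.dist_eq]
  exact h y x hy

/-- Birkhoff sums of Hölder functions are Hölder. -/
theorem Hol.sum {f : X → X} {K : NNReal} (hf : LipschitzWith K f) {ψ : X → ℝ} {L α r : ℝ}
    (hL : 0 ≤ L) (hα : 0 < α) (hr : 0 < r) (h : Hol ψ L α r) (N : ℕ) :
    ∃ L' r' : ℝ, 0 ≤ L' ∧ 0 < r' ∧ Hol (birkhoffSum f ψ N) L' α r' := by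
  induction N with
  | zero => exact ⟨0, 1, le_rfl, one_pos, fun x y _ => by simp [birkhoffSum]⟩
  | succ N ih =>
    obtain ⟨L', r', hL', hr', h1⟩ := ih
    set K' : ℝ := ((K ^ N : NNReal) : ℝ) + 1 with hK'
    have hK0 : 0 < K' := by positivity
    refine ⟨L' + L * K' ^ α, min r' (r / K'), by positivity, lt_min hr' (by positivity),
      fun x y hxy => ?_⟩
    rw [birkhoffSum_succ, birkhoffSum_succ]
    have h2 := h1 x y (hxy.trans_le (min_le_left _ _))
    have h3 : dist (f^[N] x) (f^[N] y) ≤ K' * dist x y := by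
      refine ((hf.iterate N).dist_le_mul x y).trans ?_
      exact mul_le_mul_of_nonneg_right (by rw [hK']; linarith) dist_nonneg
    have h4 : dist (f^[N] x) (f^[N] y) < r := by
      have h5 : dist x y < r / K' := hxy.trans_le (min_le_right _ _)
      rw [lt_div_iff₀ hK0] at h5
      linarith
    have h5 := h _ _ h4
    have h6 : dist (f^[N] x) (f^[N] y) ^ α ≤ K' ^ α * dist x y ^ α := by
      rw [← Real.mul_rpow hK0.le dist_nonneg]
      exact Real.rpow_le_rpow dist_nonneg h3 hα.le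
    have h7 : birkhoffSum f ψ N x + ψ (f^[N] x) - (birkhoffSum f ψ N y + ψ (f^[N] y)) =
        (birkhoffSum f ψ N x - birkhoffSum f ψ N y) + (ψ (f^[N] x) - ψ (f^[N] y)) := by ring
    rw [h7]
    refine (abs_add_le _ _).trans ?_
    have h8 := mul_le_mul_of_nonneg_left h6 hL
    nlinarith

end abs

section man

variable {E : Type*} [NormedAddCommGroup E] [NormedSpace ℝ E] [FiniteDimensional ℝ E]
  {M : Type*} [MetricSpace M] [CompactSpace M] [ChartedSpace E M] [IsManifold 𝓘(ℝ, E) ∞ M]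
  {F : Type*} [NormedAddCommGroup F] [InnerProductSpace ℝ F]

/-- Hölder functions: near every point, in the chart at this point. -/
def IsHolder (E : Type*) [NormedAddCommGroup E] [NormedSpace ℝ E] {M : Type*} [TopologicalSpace M]
    [ChartedSpace E M] (φ : M → ℝ) : Prop :=
  ∀ x₀ : M, ∃ W ∈ 𝓝 x₀, ∃ C α : ℝ, 0 < α ∧ ∀ x ∈ W, ∀ y ∈ W,
    |φ x - φ y| ≤ C * ‖extChartAt 𝓘(ℝ, E) x₀ x - extChartAt 𝓘(ℝ, E) x₀ y‖ ^ α

omit [CompactSpace M] in
theorem c1_lip_loc {F' : Type*} [NormedAddCommGroup F'] [NormedSpace ℝ F'] {e : M → F}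
    (hiso : ∀ x y, dist x y = ‖e x - e y‖) (he : ContMDiff 𝓘(ℝ, E) 𝓘(ℝ, F) 1 e)
    (hinj : ∀ x, Function.Injective (dm E e x)) (h : M → F')
    (hh : ContMDiff 𝓘(ℝ, E) 𝓘(ℝ, F') 1 h) : LocallyLipschitz h := by
  intro x₀
  set κ := extChartAt 𝓘(ℝ, E) x₀ with hκ
  have h1 : ContDiffAt ℝ 1 (hatMap h x₀) (κ x₀) :=
    hatMap_contDiffAt h hh x₀ _ (κ.map_source (mem_extChartAt_source x₀))
  obtain ⟨K, t, ht, hK⟩ := h1.exists_lipschitzOnWith
  obtain ⟨C, hC, W, hW, hWs, hWC⟩ := chart_lip e hiso he hinj x₀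
  refine ⟨K * C.toNNReal, W ∩ κ ⁻¹' t, ?_, ?_⟩
  · exact inter_mem hW ((continuousAt_extChartAt x₀).preimage_mem_nhds ht)
  · apply LipschitzOnWith.of_dist_le_mul
    intro x hx y hy
    have e1 : ∀ z ∈ W, hatMap h x₀ (κ z) = h z := fun z hz => by
      show h (κ.symm (κ z)) = h z
      rw [κ.left_inv (hWs hz)]
    have h2 := hK.dist_le_mul _ hx.2 _ hy.2
    rw [e1 x hx.1, e1 y hy.1] at h2
    refine h2.trans ?_
    have h3 := hWC x hx.1 y hy.1
    rw [dist_eq_norm (κ x)]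
    push_cast
    rw [Real.coe_toNNReal C hC, mul_assoc]
    exact mul_le_mul_of_nonneg_left h3 K.coe_nonneg

theorem c1_lip {F' : Type*} [NormedAddCommGroup F'] [NormedSpace ℝ F'] {e : M → F}
    (hiso : ∀ x y, dist x y = ‖e x - e y‖) (he : ContMDiff 𝓘(ℝ, E) 𝓘(ℝ, F) 1 e)
    (hinj : ∀ x, Function.Injective (dm E e x)) (h : M → F')
    (hh : ContMDiff 𝓘(ℝ, E) 𝓘(ℝ, F') 1 h) : ∃ K : NNReal, LipschitzWith K h := by
  have hloc' : LocallyLipschitzOn univ h :=
    (c1_lip_loc hiso he hinj h hh).locallyLipschitzOn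
  obtain ⟨L, hL⟩ := hloc'.exists_lipschitzOnWith_of_compact isCompact_univ
  exact ⟨L, lipschitzOnWith_univ.mp hL⟩

omit [CompactSpace M] in
/-- `C¹` functions are Hölder. -/
theorem isHolder_of_c1 (h : M → ℝ) (hh : ContMDiff 𝓘(ℝ, E) 𝓘(ℝ, ℝ) 1 h) : IsHolder E h := by
  intro x₀
  set κ := extChartAt 𝓘(ℝ, E) x₀ with hκ
  have h1 : ContDiffAt ℝ 1 (hatMap h x₀) (κ x₀) :=
    hatMap_contDiffAt h hh x₀ _ (κ.map_source (mem_extChartAt_source x₀))
  obtain ⟨K, t, ht, hK⟩ := h1.exists_lipschitzOnWith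
  refine ⟨κ.source ∩ κ ⁻¹' t, inter_mem (extChartAt_source_mem_nhds x₀)
    ((continuousAt_extChartAt x₀).preimage_mem_nhds ht), K, 1, one_pos, fun x hx y hy => ?_⟩
  have e1 : ∀ z ∈ κ.source, hatMap h x₀ (κ z) = h z := fun z hz => by
    show h (κ.symm (κ z)) = h z
    rw [κ.left_inv hz]
  have h2 := hK.dist_le_mul _ hx.2 _ hy.2
  rw [e1 x hx.1, e1 y hy.1, Real.dist_eq, dist_eq_norm] at h2
  rw [Real.rpow_one]
  exact h2

/-- Hölder functions satisfy a Hölder condition for the metric of an embedding. -/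
theorem hol_of_isHolder [Nonempty M] {e : M → F} (hiso : ∀ x y, dist x y = ‖e x - e y‖)
    (he : ContMDiff 𝓘(ℝ, E) 𝓘(ℝ, F) 1 e) (hinj : ∀ x, Function.Injective (dm E e x)) {φ : M → ℝ}
    (hφ : IsHolder E φ) : ∃ L α r : ℝ, 0 ≤ L ∧ 0 < α ∧ α ≤ 1 ∧ 0 < r ∧ Hol φ L α r := by
  classical
  -- local version with one parameter
  have hloc : ∀ x₀ : M, ∃ s : ℝ, ∃ W ∈ 𝓝 x₀, 0 < s ∧ s ≤ 1 ∧ ∀ x ∈ W, ∀ y ∈ W,
      dist x y ≤ 1 → |φ x - φ y| ≤ (1 / s) * dist x y ^ s := by
    intro x₀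
    obtain ⟨W, hW, C, α, hα, h1⟩ := hφ x₀
    obtain ⟨C', hC', W', hW', hWs, hWC⟩ := chart_lip e hiso he hinj x₀
    set B : ℝ := |C| * C' ^ α + 1 with hB
    have hB0 : 0 < B := by positivity
    set s : ℝ := min (min α 1) (1 / B) with hs
    have hs0 : 0 < s := lt_min (lt_min hα one_pos) (by positivity)
    refine ⟨s, W ∩ W', inter_mem hW hW', hs0, (min_le_left _ _).trans (min_le_right _ _),
      fun x hx y hy hd => ?_⟩
    have h2 := h1 x hx.1 y hy.1
    have h3 := hWC x hx.2 y hy.2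
    rcases eq_or_lt_of_le (dist_nonneg (x := x) (y := y)) with h0 | h0
    · rw [eq_comm, dist_eq_zero] at h0
      subst h0
      simp only [sub_self, abs_zero, dist_self]
      positivity
    calc |φ x - φ y| ≤ C * ‖extChartAt 𝓘(ℝ, E) x₀ x - extChartAt 𝓘(ℝ, E) x₀ y‖ ^ α := h2
      _ ≤ |C| * (C' * dist x y) ^ α := by
          refine mul_le_mul (le_abs_self C) (Real.rpow_le_rpow (norm_nonneg _) h3 hα.le)
            (Real.rpow_nonneg (norm_nonneg _) _) (abs_nonneg C)
      _ = |C| * C' ^ α * dist x y ^ α := by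
          rw [Real.mul_rpow hC' dist_nonneg, mul_assoc]
      _ ≤ B * dist x y ^ s := by
          refine mul_le_mul (by rw [hB]; linarith) ?_ (Real.rpow_nonneg dist_nonneg _) hB0.le
          exact Real.rpow_le_rpow_of_exponent_ge h0 hd
            ((min_le_left _ _).trans (min_le_left _ _))
      _ ≤ (1 / s) * dist x y ^ s := by
          apply mul_le_mul_of_nonneg_right _ (Real.rpow_nonneg dist_nonneg _)
          rw [le_div_iff₀ hs0]
          have h4 : s ≤ 1 / B := min_le_right _ _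
          rw [le_div_iff₀ hB0] at h4
          linarith
  choose s W hW hs0 hs1 hWs using hloc
  obtain ⟨t, -, ht⟩ := (isCompact_univ (X := M)).elim_nhds_subcover (fun x => interior (W x))
    (fun x _ => interior_mem_nhds.mpr (hW x))
  have htn : t.Nonempty := by
    obtain ⟨x⟩ := ‹Nonempty M›
    obtain ⟨y, hy, -⟩ := mem_iUnion₂.mp (ht (mem_univ x))
    exact ⟨y, hy⟩
  obtain ⟨x₁, hx₁, hmin⟩ := t.exists_min_image s htn
  obtain ⟨r, hr, hleb⟩ := lebesgue_number_lemma_of_metric (isCompact_univ (X := M))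
    (c := fun x : t => interior (W x)) (fun x => isOpen_interior) (fun x hx => by
      obtain ⟨y, hy, hxy⟩ := mem_iUnion₂.mp (ht hx)
      exact mem_iUnion.mpr ⟨⟨y, hy⟩, hxy⟩)
  refine ⟨1 / s x₁, s x₁, min r 1, by have := hs0 x₁; positivity, hs0 x₁, hs1 x₁,
    lt_min hr one_pos, fun x y hxy => ?_⟩
  obtain ⟨i, hi⟩ := hleb x trivial
  have hd1 : dist x y ≤ 1 := (hxy.trans_le (min_le_right _ _)).le
  have h1 := hWs i x (interior_subset (hi (mem_ball_self hr))) y
    (interior_subset (hi (by rw [mem_ball, dist_comm]; exact hxy.trans_le (min_le_left _ _)))) hd1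
  refine h1.trans ?_
  have hsi := hs0 i
  have hsx := hs0 x₁
  have hle : s x₁ ≤ s i := hmin i i.2
  rcases eq_or_lt_of_le (dist_nonneg (x := x) (y := y)) with h0 | h0
  · rw [← h0, Real.zero_rpow hsi.ne', Real.zero_rpow hsx.ne']
    simp
  refine mul_le_mul (one_div_le_one_div_of_le hsx hle)
    (Real.rpow_le_rpow_of_exponent_ge h0 hd1 hle) (Real.rpow_nonneg dist_nonneg _) (by positivity)

end man

end Pool.Agent.Run7.h934.AD
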