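import Pool.Agent.Run7.h934.AD.Top
import Pool.Agent.Y331.EP.Mix

/-!
# Closures of the stable leaves of hyperbolic homeomorphisms (helper934)
-/

set_option autoImplicit false

open Filter Topology Set Metric

namespace Pool.Agent.Run7.h934.AD

open Pool.Agent.H789R2.AN Pool.Agent.H721R2 Pool.Agent.Y321.PJ

variable {X : Type*} [MetricSpace X]

/-- the stable set -/
def Lf (g : X ≃ₜ X) (x : X) : Set X := {y | WS g x y}

theorem mem_Lf_self (g : X ≃ₜ X) (x : X) : x ∈ Lf g x := WS.refl g x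

/-- closures of stably saturated sets are stably saturated -/
theorem closure_sat_s {g : X ≃ₜ X} {c : ℝ} (h : LP g c) {S : Set X}
    (hS : ∀ x ∈ S, ∀ y, WS g x y → y ∈ S) : ∀ x ∈ closure S, ∀ y, WS g x y → y ∈ closure S :=
  closure_sat h.symm hS

theorem closure_Lf_sat {g : X ≃ₜ X} {c : ℝ} (h : LP g c) (x : X) :
    ∀ y ∈ closure (Lf g x), ∀ z, WS g y z → z ∈ closure (Lf g x) :=
  closure_sat_s h fun _ hy _ hyz => WS.trans hy hyz

theorem closure_Lf_subset {g : X ≃ₜ X} {c : ℝ} (h : LP g c) {x y : X}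
    (hy : y ∈ closure (Lf g x)) : closure (Lf g y) ⊆ closure (Lf g x) :=
  closure_minimal (fun _ hz => closure_Lf_sat h x y hy _ hz) isClosed_closure

theorem closure_Lf_subset_rep {g : X ≃ₜ X} {R : Set X} (hR : IsAtt g.symm R) {x : X} (hx : x ∈ R) :
    closure (Lf g x) ⊆ R :=
  closure_minimal (fun _ hz => hR.sat x hx _ hz) hR.closed

/-- the leaves whose closure is a minimal set of the foliation -/
def Mn (g : X ≃ₜ X) : Set X := {x | ∀ y ∈ closure (Lf g x), x ∈ closure (Lf g y)}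

/-- There are minimal sets. -/
theorem Mn_nonempty [CompactSpace X] [Nonempty X] {g : X ≃ₜ X} {c : ℝ} (h : LP g c) :
    (Mn g).Nonempty := by
  obtain ⟨B, hB⟩ := zorn_superset {B : Set X | IsClosed B ∧ B.Nonempty ∧
      ∀ x ∈ B, ∀ y, WS g x y → y ∈ B} (by
    intro C hC hchain
    by_cases hne : C.Nonempty
    · refine ⟨⋂₀ C, ⟨?_, ?_, ?_⟩, fun s hs => sInter_subset_of_mem hs⟩
      · exact isClosed_sInter fun s hs => (hC hs).1
      · have := hne.to_subtype
        refine IsCompact.nonempty_sInter_of_directed_nonempty_isCompact_isClosed ?_ ?_ ?_ ?_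
        · exact IsChain.directedOn hchain.symm
        · exact fun s hs => (hC hs).2.1
        · exact fun s hs => (hC hs).1.isCompact
        · exact fun s hs => (hC hs).1
      · intro x hx y hxy s hs
        exact (hC hs).2.2 x (hx s hs) y hxy
    · rw [not_nonempty_iff_eq_empty] at hne
      refine ⟨univ, ⟨isClosed_univ, univ_nonempty, fun _ _ _ _ => mem_univ _⟩, fun s hs => ?_⟩
      rw [hne] at hs
      exact absurd hs (notMem_empty s))
  obtain ⟨x, hx⟩ := hB.prop.2.1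
  refine ⟨x, fun y hy => ?_⟩
  have h1 : closure (Lf g x) ⊆ B :=
    closure_minimal (fun _ hz => hB.prop.2.2 x hx _ hz) hB.prop.1
  have h2 : B ⊆ closure (Lf g y) := by
    refine hB.le_of_le ⟨isClosed_closure, ⟨y, subset_closure (mem_Lf_self g y)⟩,
      closure_Lf_sat h y⟩ ?_
    exact (closure_Lf_subset h hy).trans h1
  exact h2 hx

/-- `near_stable` with a uniform bound for the time -/
theorem near_stable_unif [CompactSpace X] {g : X ≃ₜ X} {c : ℝ} (h : LP g c) {A : Set X}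
    (hA : MinAtt g A) {x : X} (hx : x ∈ Bas g A) {ε : ℝ} (hε : 0 < ε) :
    ∃ K : ℕ, ∀ p ∈ A, ∃ (k : ℕ) (y : X), k ≤ K ∧ SR g.symm ε x y ∧
      WS g (g.symm^[k] p) y := by
  obtain ⟨a, ha, hxa⟩ := hx
  set ε₂ := min (ε / 2) c with hε₂
  have hε₂0 : 0 < ε₂ := lt_min (half_pos hε) h.c_pos
  obtain ⟨δ₂, hδ₂, hlp₂⟩ := h.lp ε₂ hε₂0
  set ε₁ := min (δ₂ / 4) c with hε₁
  have hε₁0 : 0 < ε₁ := lt_min (by linarith) h.c_pos
  obtain ⟨δ₁, hδ₁, hlp₁⟩ := h.lp ε₁ hε₁0
  obtain ⟨m, hm⟩ := hxa.eventually_lt (ε := δ₂ / 4) (by linarith)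
  have h0 := hm m le_rfl
  obtain ⟨K, hK⟩ := minAtt_trans_unif h hA (lt_min hδ₁ (by linarith : 0 < δ₂ / 4))
  refine ⟨K + m, fun p hp => ?_⟩
  obtain ⟨n, -, hnK, z, hz1, hz2⟩ := hK _ ((inv_iter hA.1.inv m a).mpr ha) p hp
  have hz2' : dist p (g^[n] z) < δ₁ := by
    rw [dist_comm]; exact lt_of_lt_of_le hz2 (min_le_left _ _)
  have hz1' : dist z (g^[m] a) < δ₂ / 4 := lt_of_lt_of_le hz1 (min_le_right _ _)
  obtain ⟨w, hw1, hw2⟩ := hlp₁ _ _ hz2'
  have h3 := hw2 n
  rw [iterL] at h3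
  have h4 : dist (g.symm^[n] w) (g^[m] x) < δ₂ := by
    have t1 := dist_triangle (g.symm^[n] w) z (g^[m] x)
    have t2 := dist_triangle z (g^[m] a) (g^[m] x)
    rw [dist_comm] at h3
    rw [dist_comm (g^[m] a)] at t2
    have : ε₁ ≤ δ₂ / 4 := min_le_left _ _
    linarith
  obtain ⟨y, hy1, hy2⟩ := hlp₂ _ _ h4
  refine ⟨n + m, g.symm^[m] y, by omega, fun k => ?_, ?_⟩
  · have h5 := hy2 (k + m)
    rw [Function.iterate_add_apply, iterL, Function.iterate_add_apply] at h5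
    have : ε₂ ≤ ε / 2 := min_le_left _ _
    linarith
  · have h6 : WS g (g.symm^[n] w) y := WS.of_SR (h.cS _ _ (hy1.mono (min_le_right _ _)))
    have h7 : WS g p w := WS.of_SR (h.cS _ _ (hw1.mono (min_le_right _ _)))
    have h8 : WS g (g.symm^[n] p) (g.symm^[n] w) := by
      rw [← WS.iter n, iterR, iterR]; exact h7
    have h9 := h8.trans h6
    rw [← WS.iter m, iterR, add_comm, Function.iterate_add_apply, iterR]
    exact h9

/-- Every leaf in the basin of `A` accumulates on `R`, if some point goes from `R` to `A`. -/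
theorem closure_meets [CompactSpace X] {g : X ≃ₜ X} {c : ℝ} (h : LP g c) {A R : Set X}
    (hA : MinAtt g A) (hR : IsAtt g.symm R) (hne : (Bas g A ∩ Bas g.symm R).Nonempty) {a : X}
    (ha : a ∈ A) : (closure (Lf g a) ∩ R).Nonempty := by
  have key : ∀ ε > 0, ∃ z ∈ Lf g a, ∃ r ∈ R, dist z r < ε := by
    intro ε hε
    -- a point of the basin of `A` in the local unstable set of `R`
    obtain ⟨x₀, hx₀A, r₀, hr₀, hx₀r⟩ := hne
    obtain ⟨m, hm⟩ := WS.eventually_lt (g := g.symm) hx₀r (half_pos hε)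
    set x := g.symm^[m] x₀ with hx
    have hxA : x ∈ Bas g A :=
      (inv_iter (inv_symm (fun y => bas_map (g := g) (φ := g) (fun _ => rfl) hA.1.inv y)) m
        x₀).mpr hx₀A
    have hxr : ∀ k : ℕ, dist (g.symm^[k] x) (g.symm^[k] (g.symm^[m] r₀)) < ε / 2 := by
      intro k
      rw [hx, ← Function.iterate_add_apply, ← Function.iterate_add_apply]
      exact hm _ (by omega)
    obtain ⟨K, hK⟩ := near_stable_unif h hA hxA (half_pos hε)
    obtain ⟨k, y, hkK, hy1, hy2⟩ := hK _ ((inv_iter hA.1.inv K a).mpr ha)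
    obtain ⟨j, rfl⟩ := Nat.exists_eq_add_of_le hkK
    have e1 : g.symm^[k] (g^[k + j] a) = g^[j] a := by
      rw [Function.iterate_add_apply g k j, iterL]
    rw [e1] at hy2
    refine ⟨g.symm^[j] y, ?_, g.symm^[j] (g.symm^[m] r₀),
      (inv_iter hR.inv j _).mpr ((inv_iter hR.inv m r₀).mpr hr₀), ?_⟩
    · show WS g a (g.symm^[j] y)
      rw [← WS.iter j, iterR]
      exact hy2
    · have t1 := hy1 j
      have t2 := hxr j
      have t3 := dist_triangle_left (g.symm^[j] y) (g.symm^[j] (g.symm^[m] r₀)) (g.symm^[j] x)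
      linarith
  obtain ⟨y, hy⟩ : (closure (Lf g a) ∩ R).Nonempty := by
    by_contra hcon
    rw [not_nonempty_iff_eq_empty, ← disjoint_iff_inter_eq_empty] at hcon
    obtain ⟨ρ, hρ, h1⟩ := exists_pos_forall_lt_edist isClosed_closure.isCompact hR.closed hcon
    obtain ⟨z, hz, r, hr, hzr⟩ := key ρ (by exact_mod_cast hρ)
    have h4 := h1 _ (subset_closure hz) _ hr
    rw [edist_dist, ← ENNReal.ofReal_coe_nnreal,
      ENNReal.ofReal_lt_ofReal_iff_of_nonneg ρ.coe_nonneg] at h4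
    linarith
  exact ⟨y, hy⟩

end Pool.Agent.Run7.h934.AD
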