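import Pool.Agent.Run7.h934.AD.Leaf

/-!
# Transitivity and the closures of the stable leaves (helper934)
-/

set_option autoImplicit false

open Filter Topology Set Metric

namespace Pool.Agent.Run7.h934.AD

open Pool.Agent.H789R2.AN Pool.Agent.H721R2 Pool.Agent.Y321.PJ Pool.Agent.TH289

variable {X : Type*} [MetricSpace X] {E : Type*} [NormedAddCommGroup E] [NormedSpace ℝ E]

/-- The stable leaves of a transitive system on a connected space are dense. -/
theorem dense_leaf [CompactSpace X] [ConnectedSpace X] (S : HypSys X E) (f : X ≃ₜ X) {N : ℕ}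
    (hN : 1 ≤ N) (hg : S.g = iterHomeo f N) (hT : TopTransitive f) (x : X) :
    Dense (Lf f x) := by
  rw [Metric.dense_iff]
  intro u r hr
  obtain ⟨c, h⟩ := exists_LP S
  have hc := h.c_pos
  obtain ⟨ε₀, hε₀, hsh⟩ := S.shadowing
  have hK := S.one_le_K
  have hK0 : 0 < S.K := by linarith
  obtain ⟨ε, hε0, hε1, hε2, hε3⟩ : ∃ ε : ℝ, 0 < ε ∧ ε ≤ ε₀ ∧ 8 * S.K * ε ≤ c ∧
      8 * S.K * ε < r := by
    refine ⟨min ε₀ (min (c / (8 * S.K)) (r / (9 * S.K))), lt_min hε₀ (lt_min (by positivity)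
      (by positivity)), min_le_left _ _, ?_, ?_⟩
    · have h1 : min ε₀ (min (c / (8 * S.K)) (r / (9 * S.K))) ≤ c / (8 * S.K) :=
        (min_le_right _ _).trans (min_le_left _ _)
      rw [le_div_iff₀ (by positivity)] at h1
      linarith
    · have h1 : min ε₀ (min (c / (8 * S.K)) (r / (9 * S.K))) ≤ r / (9 * S.K) :=
        (min_le_right _ _).trans (min_le_right _ _)
      rw [le_div_iff₀ (by positivity)] at h1
      have h2 : 0 < min ε₀ (min (c / (8 * S.K)) (r / (9 * S.K))) := lt_min hε₀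
        (lt_min (by positivity) (by positivity))
      nlinarith
  obtain ⟨δ, hδ, hps⟩ := pseudo_iter f N hε0
  obtain ⟨n₀, hn₀⟩ := Pool.Agent.Y331.EP.exists_mx (f := f) hT hδ
  -- a chain from `u` to `g^k x` with `N k` steps
  set k := n₀ with hk
  have hNk : n₀ ≤ N * k := Nat.le_mul_of_pos_left _ hN
  obtain ⟨q, hq, hq0, hqv⟩ := hn₀ _ hNk u (f^[N * k] x)
  set cc : ℕ → X := fun i => if i ≤ N * k then q i else f^[i] x with hcc
  have hcc1 : ∀ i, i ≤ N * k → cc i = q i := fun i hi => if_pos hi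
  have hcc2 : ∀ i, N * k ≤ i → cc i = f^[i] x := by
    intro i hi
    rcases Nat.eq_or_lt_of_le hi with h1 | h1
    · rw [hcc1 i h1.ge, ← h1, hqv]
    · exact if_neg (by omega)
  have hstep : ∀ i, dist (f (cc i)) (cc (i + 1)) ≤ δ := by
    intro i
    rcases Nat.lt_or_ge i (N * k) with h1 | h1
    · rw [hcc1 i h1.le, hcc1 (i + 1) h1]
      exact hq i h1
    · rw [hcc2 i h1, hcc2 (i + 1) (by omega), ← Function.iterate_succ_apply' f, dist_self]
      exact hδ.le
  let z : ℤ → X := fun j => if 0 ≤ j then cc (N * j.toNat) else S.g.symm^[(-j).toNat] u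
  have hz1 : ∀ j : ℕ, z j = cc (N * j) := fun j => by
    show (if (0 : ℤ) ≤ j then cc (N * (j : ℤ).toNat) else _) = _
    rw [if_pos (Int.natCast_nonneg j), Int.toNat_natCast]
  have hz2 : ∀ j : ℕ, z (-(j : ℤ)) = S.g.symm^[j] u := fun j => by
    rcases Nat.eq_zero_or_pos j with h1 | h1
    · subst h1
      have := hz1 0
      simp only [Nat.cast_zero, Nat.mul_zero] at this
      simp only [Nat.cast_zero, neg_zero, Function.iterate_zero, id_eq]
      rw [this, hcc1 0 (Nat.zero_le _), hq0]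
    · show (if (0 : ℤ) ≤ -(j : ℤ) then _ else S.g.symm^[(- -(j : ℤ)).toNat] u) = _
      rw [if_neg (by omega)]
      simp
  have hgN : ∀ y, S.g y = f^[N] y := fun y => by rw [hg]; rfl
  have hzs : ∀ j : ℤ, dist (S.g (z j)) (z (j + 1)) ≤ ε := by
    intro j
    rcases le_or_gt 0 j with h1 | h1
    · obtain ⟨i, rfl⟩ := Int.eq_ofNat_of_zero_le h1
      have e : ((i : ℤ) + 1) = ((i + 1 : ℕ) : ℤ) := by push_cast; ring
      rw [e, hz1, hz1, hgN]
      have h2 := hps (fun t => cc (N * i + t)) (fun t => hstep (N * i + t))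
      simp only [Nat.add_zero] at h2
      rwa [Nat.mul_succ]
    · obtain ⟨i, hi⟩ : ∃ i : ℕ, j = -((i + 1 : ℕ) : ℤ) := ⟨(-j).toNat - 1, by omega⟩
      have e : j + 1 = -(i : ℤ) := by rw [hi]; push_cast; ring
      rw [e, hi, hz2, hz2, Function.iterate_succ_apply', S.g.apply_symm_apply, dist_self]
      exact hε0.le
  obtain ⟨y, hy1, hy2⟩ := hsh ε hε1 z hzs
  have hyn : ∀ j : ℕ, y j = S.g^[j] (y 0) := fun j => S.orbit_nat y hy1 j
  refine ⟨y 0, ?_, ?_⟩
  · have h1 := hy2 0
    have h2 := hz2 0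
    simp only [Nat.cast_zero, neg_zero, Function.iterate_zero, id_eq] at h2
    rw [h2] at h1
    rw [mem_ball]
    linarith
  · show WS f x (y 0)
    rw [← WS_iter_iff f hN, ← hg, ← WS.iter k]
    apply WS.of_SR (h.cS _ _ _)
    intro j
    rw [← Function.iterate_add_apply, ← Function.iterate_add_apply, ← hyn]
    have h1 := hy2 ((j + k : ℕ) : ℤ)
    rw [hz1, hcc2 _ (Nat.mul_le_mul_left _ (by omega))] at h1
    have h2 : S.g^[j + k] x = f^[N * (j + k)] x := by
      rw [hg]; exact iterHomeo_iter f N _ x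
    rw [h2, dist_comm]
    exact h1.trans hε2

theorem Lf_iter [CompactSpace X] {f g : X ≃ₜ X} {N : ℕ} (hN : 1 ≤ N) (hg : g = iterHomeo f N)
    (x : X) : Lf f x = Lf g x := by
  ext y
  show WS f x y ↔ WS g x y
  rw [hg, WS_iter_iff f hN]

theorem trans_of_iter {f g : X ≃ₜ X} {N : ℕ} (hg : g = iterHomeo f N)
    (h : ∀ U V : Set X, IsOpen U → U.Nonempty → IsOpen V → V.Nonempty →
      ∃ n : ℕ, (g^[n] '' U ∩ V).Nonempty) : TopTransitive f := by
  intro U V hU hUn hV hVn
  obtain ⟨n, y, ⟨x, hx, hxy⟩, hy⟩ := h U V hU hUn hV hVn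
  refine ⟨N * n, y, ⟨x, hx, ?_⟩, hy⟩
  rw [← hxy, hg, iterHomeo_iter]

theorem exists_per [CompactSpace X] (S : HypSys X E) {c : ℝ} (h : LP S.g c) {A : Set X}
    (hA : MinAtt S.g A) : ∃ p ∈ A, ∃ m : ℕ, 1 ≤ m ∧ S.g^[m] p = p := by
  obtain ⟨K, hK⟩ := Pool.Agent.Y321.PJ.closing S h hA
  obtain ⟨a, ha⟩ := hA.1.nonempty
  obtain ⟨m, -, p, hp, h1, h2, -⟩ := hK a ha 0
  exact ⟨p, hp, 0 + m, h1, h2⟩

theorem per_symm {g : X ≃ₜ X} {m : ℕ} {p : X} (h : g^[m] p = p) : g.symm^[m] p = p := by
  have := iterL g m p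
  rwa [h] at this

theorem mem_periodic {f g : X ≃ₜ X} {N : ℕ} (hN : 1 ≤ N) (hg : g = iterHomeo f N) {m : ℕ}
    (hm : 1 ≤ m) {p : X} (h : g^[m] p = p) : p ∈ Function.periodicPts f := by
  refine ⟨N * m, Nat.mul_pos hN hm, ?_⟩
  show f^[N * m] p = p
  rw [← iterHomeo_iter, ← hg]
  exact h

theorem leaf_tfae [CompactSpace X] [ConnectedSpace X] (S : HypSys X E) (f : X ≃ₜ X) {N : ℕ}
    (hN : 1 ≤ N) (hg : S.g = iterHomeo f N) : List.TFAE [TopTransitive f,
      ∀ x y, y ∈ closure (Lf f x) → x ∈ closure (Lf f y),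
      ∀ x ∈ Function.periodicPts f, ∀ y ∈ Function.periodicPts f,
        y ∈ closure (Lf f x) → x ∈ closure (Lf f y),
      (interior (closure {x | ∀ y ∈ closure (Lf f x), x ∈ closure (Lf f y)})).Nonempty,
      ∀ x, (interior (closure (Lf f x))).Nonempty] := by
  obtain ⟨c, h⟩ := exists_LP S
  have hL : ∀ x, Lf f x = Lf S.g x := Lf_iter hN hg
  tfae_have 1 → 2 := by
    intro hT x y _
    rw [(dense_leaf S f hN hg hT y).closure_eq]
    trivial
  tfae_have 2 → 3 := fun h2 x _ y _ => h2 x y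
  tfae_have 1 → 4 := by
    intro hT
    have e : {x | ∀ y ∈ closure (Lf f x), x ∈ closure (Lf f y)} = univ := by
      apply eq_univ_of_forall
      intro x y _
      rw [(dense_leaf S f hN hg hT y).closure_eq]
      trivial
    rw [e, closure_univ, interior_univ]
    exact univ_nonempty
  tfae_have 1 → 5 := by
    intro hT x
    rw [(dense_leaf S f hN hg hT x).closure_eq, interior_univ]
    exact univ_nonempty
  tfae_have 3 → 1 := by
    intro h3
    by_contra hnt
    have hnt' := mt (trans_of_iter hg) hnt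
    obtain ⟨A, R, hA, hR, hne⟩ := exists_connection h isOpen_univ univ_nonempty
    have hd := disjoint_of_nontrans h hnt' hA hR
    obtain ⟨p, hp, m, hm, hpm⟩ := exists_per S h hA
    obtain ⟨q, hq, m', hm', hqm'⟩ := exists_per S.symm h.symm hR
    have hqm : S.g^[m'] q = q := per_symm (g := S.g.symm) hqm'
    obtain ⟨j, k, x, -, h4, h5⟩ := exists_heteroclinic h hA hR isOpen_univ hne hp hq
    set p' := S.g.symm^[k] p with hp'
    set q' := S.g^[j] q with hq'
    have hpm1 : S.g^[m] p' = p' := per_back hpm k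
    have hqm1 : S.g^[m'] q' = q' := per_iter hqm j
    have hp'A : p' ∈ A := (inv_iter (inv_symm hA.1.inv) k p).mpr hp
    have hcl : q' ∈ closure (Lf S.g p') := by
      rw [Metric.mem_closure_iff]
      intro ε hε
      obtain ⟨n₀, hn₀⟩ := h5.eventually_lt hε
      have h6 := hn₀ (m * m' * n₀) (Nat.le_mul_of_pos_left _ (Nat.mul_pos hm hm'))
      refine ⟨S.g.symm^[m * m' * n₀] x, ?_, ?_⟩
      · show WS S.g p' _
        have e1 : S.g^[m * m' * n₀] p' = p' := by
          rw [Nat.mul_assoc, Function.iterate_mul]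
          exact Function.iterate_fixed hpm1 _
        rw [← WS.iter (m * m' * n₀), iterR, e1]
        exact h4
      · have e2 : S.g.symm^[m * m' * n₀] q' = q' := by
          rw [Nat.mul_comm m m', Nat.mul_assoc, Function.iterate_mul]
          exact Function.iterate_fixed (per_symm hqm1) _
        rw [e2] at h6
        exact h6
    have h7 := h3 p' (mem_periodic hN hg hm hpm1) q' (mem_periodic hN hg hm' hqm1)
      (by rw [hL]; exact hcl)
    rw [hL] at h7
    have hqR : q' ∈ R := by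
      have := (inv_iter (inv_symm hR.1.inv) j q).mpr hq
      exact this
    exact (Set.disjoint_left.mp hd) hp'A (closure_Lf_subset_rep hR.1 hqR h7)
  tfae_have 4 → 1 := by
    intro h4
    by_contra hnt
    have hnt' := mt (trans_of_iter hg) hnt
    simp only [hL] at h4
    obtain ⟨A, R, hA, hR, hne⟩ := exists_connection h isOpen_interior h4
    have hd := disjoint_of_nontrans h hnt' hA hR
    obtain ⟨x₀, hx₀⟩ := hne
    have ho : IsOpen (interior (closure (Mn S.g)) ∩ Bas S.g A ∩ Bas S.g.symm R) :=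
      (isOpen_interior.inter (isOpen_bas h hA.1)).inter (isOpen_bas h.symm hR.1)
    obtain ⟨x, hxO, hxM⟩ := mem_closure_iff.mp (interior_subset hx₀.1.1) _ ho hx₀
    obtain ⟨a, ha, hxa⟩ := hxO.1.2
    obtain ⟨r, hr, hrR⟩ := closure_meets h hA hR.1 ⟨x, hxO.1.2, hxO.2⟩ ha
    have e : Lf S.g a = Lf S.g x := by
      ext y
      exact ⟨fun hy => WS.trans hxa hy, fun hy => WS.trans hxa.symm' hy⟩
    rw [e] at hr
    have h5 := closure_Lf_subset_rep hR.1 hrR (hxM r hr)
    exact not_asymp hR.1.closed hA.1.closed (fun y => by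
      have := inv_symm hR.1.inv y
      exact this) hA.1.inv hd.symm h5 ha hxa
  tfae_have 5 → 1 := by
    intro h5
    by_contra hnt
    have hnt' := mt (trans_of_iter hg) hnt
    obtain ⟨A, R, hA, hR, hne⟩ := exists_connection h isOpen_univ univ_nonempty
    obtain ⟨r, hr⟩ := hR.1.nonempty
    have h6 := h5 r
    rw [hL] at h6
    obtain ⟨A', hA', x, hxV, hxA⟩ := exists_bas h isOpen_interior h6
    have hd := disjoint_of_nontrans h hnt' hA' hR
    have hxR : x ∈ R := closure_Lf_subset_rep hR.1 hr (interior_subset hxV)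
    obtain ⟨a, ha, hxa⟩ := hxA
    exact not_asymp hR.1.closed hA'.1.closed (fun y => by
      have := inv_symm hR.1.inv y
      exact this) hA'.1.inv hd.symm hxR ha hxa
  tfae_finish

/-- If the homeomorphisms that preserve the stable foliation act minimally then the system is
transitive. -/
theorem leaf_hom [CompactSpace X] [ConnectedSpace X] (S : HypSys X E) (f : X ≃ₜ X) {N : ℕ}
    (hN : 1 ≤ N) (hg : S.g = iterHomeo f N)
    (hh : ∀ (x : X) (U : Set X), IsOpen U → U.Nonempty → ∃ φ : X ≃ₜ X,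
      (∀ y z, WS f y z ↔ WS f (φ y) (φ z)) ∧ φ x ∈ U) : TopTransitive f := by
  obtain ⟨c, h⟩ := exists_LP S
  have hL : ∀ x, Lf f x = Lf S.g x := Lf_iter hN hg
  refine ((leaf_tfae S f hN hg).out 3 0).mp ?_
  obtain ⟨x, hx⟩ := Mn_nonempty h
  have hdense : Dense {x | ∀ y ∈ closure (Lf f x), x ∈ closure (Lf f y)} := by
    rw [dense_iff_inter_open]
    intro U hU hUn
    obtain ⟨φ, h1, h2⟩ := hh x U hU hUn
    refine ⟨φ x, h2, ?_⟩
    have key : ∀ y z, y ∈ closure (Lf f z) ↔ φ y ∈ closure (Lf f (φ z)) := by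
      intro y z
      have e : φ '' (Lf f z) = Lf f (φ z) := by
        ext w
        constructor
        · rintro ⟨v, hv, rfl⟩
          exact (h1 z v).mp hv
        · intro hw
          refine ⟨φ.symm w, ?_, φ.apply_symm_apply w⟩
          show WS f z (φ.symm w)
          rw [h1, φ.apply_symm_apply]
          exact hw
      rw [← e, ← φ.image_closure]
      exact (φ.injective.mem_set_image).symm
    intro y hy
    obtain ⟨y', rfl⟩ := φ.surjective y
    rw [← key] at hy ⊢
    simp only [hL] at hy ⊢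
    exact hx y' hy
  rw [hdense.closure_eq, interior_univ]
  exact univ_nonempty

end Pool.Agent.Run7.h934.AD
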