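import Pool.Agent.Run7.h934.AD.Liv

/-!
# Lipschitz functions have the Walters property (helper934)
-/

set_option autoImplicit false

open Filter Topology Set Metric

namespace Pool.Agent.Run7.h934.AD

open Pool.Agent.H789R2.AN Pool.Agent.H721R2 Pool.Agent.Y321.PJ Pool.Agent.TH289

variable {X : Type*} [MetricSpace X] {E : Type*} [NormedAddCommGroup E] [NormedSpace ℝ E]

theorem half_sum_rev (n : ℕ) : ∑ i ∈ Finset.range n, (1 / 2 : ℝ) ^ (n - 1 - i) ≤ 2 := by
  have h1 := Finset.sum_range_reflect (fun i : ℕ => (1 / 2 : ℝ) ^ i) n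
  rw [h1]
  exact sum_half n

/-- Walters property of Lipschitz functions for the hyperbolic iterate. -/
theorem wal_lip_g [CompactSpace X] (S : HypSys X E) {ψ : X → ℝ} {L : ℝ} (hL : 0 ≤ L)
    (hψ : ∀ x y, |ψ x - ψ y| ≤ L * dist x y) : Wal S.g ψ := by
  intro η hη
  obtain ⟨c, h⟩ := exists_LP S
  obtain ⟨ε₁, hε₁, h1⟩ := contrS_iter S
  obtain ⟨ε₂, hε₂, h2⟩ := contrS_iter S.symm
  -- the size
  set ρ := min (min (ε₁ / 2) (ε₂ / 2)) (η / (8 * (L + 1))) with hρ
  have hρ0 : 0 < ρ := lt_min (lt_min (half_pos hε₁) (half_pos hε₂)) (by positivity)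
  have hρ1 : ρ ≤ ε₁ / 2 := (min_le_left _ _).trans (min_le_left _ _)
  have hρ2 : ρ ≤ ε₂ / 2 := (min_le_left _ _).trans (min_le_right _ _)
  have hρ3 : L * (6 * ρ) ≤ η := by
    have h3 : ρ ≤ η / (8 * (L + 1)) := min_le_right _ _
    rw [le_div_iff₀ (by positivity)] at h3
    nlinarith
  obtain ⟨δ, hδ, hlp⟩ := h.lp ρ hρ0
  refine ⟨min (δ / 2) ρ, lt_min (half_pos hδ) hρ0, fun n x y hxy => ?_⟩
  rcases Nat.eq_zero_or_pos n with h0 | h0
  · subst h0
    simpa [birkhoffSum] using hη.le
  have hxy' : ∀ k < n, dist (S.g^[k] x) (S.g^[k] y) ≤ ρ := fun k hk =>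
    (hxy k hk).trans (min_le_right _ _)
  have hd : dist x y < δ := by
    have := (hxy 0 h0).trans (min_le_left _ _)
    simp only [Function.iterate_zero, id_eq] at this
    linarith
  obtain ⟨z, hz1, hz2⟩ := hlp x y hd
  -- forward estimate
  have hf : ∀ k, dist (S.g^[k] x) (S.g^[k] z) ≤ (1 / 2) ^ k * ρ := by
    intro k
    have h3 := h1 x z (fun j => (hz1 j).trans (by linarith)) k
    exact h3.trans (mul_le_mul_of_nonneg_left (hz1 0) (by positivity))
  -- backward estimate
  have hclose : ∀ k < n, dist (S.g^[k] y) (S.g^[k] z) ≤ 2 * ρ := by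
    intro k hk
    have h3 := hz1 k
    have h4 := hxy' k hk
    have := dist_triangle_left (S.g^[k] y) (S.g^[k] z) (S.g^[k] x)
    linarith
  have hsr : S.symm.SRel ε₂ (S.g^[n - 1] y) (S.g^[n - 1] z) := by
    intro j
    show dist (S.g.symm^[j] (S.g^[n - 1] y)) (S.g.symm^[j] (S.g^[n - 1] z)) ≤ ε₂
    rcases le_total j (n - 1) with hj | hj
    · have e : ∀ w : X, S.g.symm^[j] (S.g^[n - 1] w) = S.g^[n - 1 - j] w := by
        intro w
        have : S.g^[n - 1] w = S.g^[j] (S.g^[n - 1 - j] w) := by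
          rw [← Function.iterate_add_apply]; congr 1; omega
        rw [this, iterL]
      rw [e, e]
      have := hclose (n - 1 - j) (by omega)
      linarith
    · obtain ⟨i, rfl⟩ := Nat.exists_eq_add_of_le hj
      rw [Nat.add_comm, Function.iterate_add_apply, iterL, Function.iterate_add_apply, iterL]
      have := hz2 i
      linarith
  have hb : ∀ k < n, dist (S.g^[k] y) (S.g^[k] z) ≤ (1 / 2) ^ (n - 1 - k) * (2 * ρ) := by
    intro k hk
    have h3 := h2 _ _ hsr (n - 1 - k)
    have e : ∀ w : X, S.g.symm^[n - 1 - k] (S.g^[n - 1] w) = S.g^[k] w := by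
      intro w
      have : S.g^[n - 1] w = S.g^[n - 1 - k] (S.g^[k] w) := by
        rw [← Function.iterate_add_apply]; congr 1; omega
      rw [this, iterL]
    have h4 : dist (S.g.symm^[n - 1 - k] (S.g^[n - 1] y)) (S.g.symm^[n - 1 - k] (S.g^[n - 1] z)) ≤
        (1 / 2) ^ (n - 1 - k) * dist (S.g^[n - 1] y) (S.g^[n - 1] z) := h3
    rw [e, e] at h4
    exact h4.trans (mul_le_mul_of_nonneg_left (hclose (n - 1) (by omega)) (by positivity))
  rw [birkhoffSum, birkhoffSum, ← Finset.sum_sub_distrib]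
  refine (Finset.abs_sum_le_sum_abs _ _).trans ?_
  calc ∑ k ∈ Finset.range n, |ψ (S.g^[k] x) - ψ (S.g^[k] y)|
      ≤ ∑ k ∈ Finset.range n, L * ((1 / 2) ^ k * ρ + (1 / 2) ^ (n - 1 - k) * (2 * ρ)) := by
        apply Finset.sum_le_sum
        intro k hk
        rw [Finset.mem_range] at hk
        refine (hψ _ _).trans (mul_le_mul_of_nonneg_left ?_ hL)
        have h3 := hf k
        have h4 := hb k hk
        have := dist_triangle_right (S.g^[k] x) (S.g^[k] y) (S.g^[k] z)
        linarith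
    _ = L * (ρ * (∑ k ∈ Finset.range n, (1 / 2 : ℝ) ^ k) +
          2 * ρ * ∑ k ∈ Finset.range n, (1 / 2 : ℝ) ^ (n - 1 - k)) := by
        rw [← Finset.mul_sum, Finset.sum_add_distrib, ← Finset.sum_mul, ← Finset.sum_mul]
        ring
    _ ≤ L * (6 * ρ) := by
        apply mul_le_mul_of_nonneg_left _ hL
        have h3 := sum_half n
        have h4 := half_sum_rev n
        nlinarith
    _ ≤ η := hρ3

theorem birkhoffSum_block {f : X → X} (φ : X → ℝ) (N q : ℕ) (x : X) :
    birkhoffSum f φ (N * q) x = birkhoffSum (f^[N]) (birkhoffSum f φ N) q x := by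
  induction q with
  | zero => simp [birkhoffSum]
  | succ q ih =>
    rw [Nat.mul_succ, birkhoffSum_add, ih, birkhoffSum_succ, Function.iterate_mul]

/-- From the iterate to `f`. -/
theorem wal_of_iter [CompactSpace X] {f g : X ≃ₜ X} {N : ℕ} (hN : 1 ≤ N)
    (hg : g = iterHomeo f N) {φ : X → ℝ} (hφ : Continuous φ)
    (h : Wal g (birkhoffSum f φ N)) : Wal f φ := by
  intro η hη
  obtain ⟨ε₁, hε₁, h1⟩ := h (η / 2) (half_pos hη)
  have hu : UniformContinuous φ := CompactSpace.uniformContinuous_of_continuous hφ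
  obtain ⟨ε₂, hε₂, h2⟩ := Metric.uniformContinuous_iff.mp hu (η / (2 * N)) (by positivity)
  refine ⟨min ε₁ (ε₂ / 2), lt_min hε₁ (half_pos hε₂), fun n x y hxy => ?_⟩
  have hn : N * (n / N) + n % N = n := Nat.div_add_mod n N
  have hgN : (g : X → X) = f^[N] := by rw [hg]; rfl
  rw [← hn, birkhoffSum_add, birkhoffSum_add, birkhoffSum_block, birkhoffSum_block, ← hgN]
  have h3 := h1 (n / N) x y (fun k hk => by
    rw [hg, iterHomeo_iter, iterHomeo_iter]
    refine (hxy _ ?_).trans (min_le_left _ _)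
    calc N * k < N * (n / N) := Nat.mul_lt_mul_of_pos_left hk hN
      _ ≤ n := Nat.mul_div_le n N)
  have h4 : |birkhoffSum f φ (n % N) (f^[N * (n / N)] x) -
      birkhoffSum f φ (n % N) (f^[N * (n / N)] y)| ≤ η / 2 := by
    rw [birkhoffSum, birkhoffSum, ← Finset.sum_sub_distrib]
    refine (Finset.abs_sum_le_sum_abs _ _).trans ?_
    have hN0 : (0 : ℝ) < N := by exact_mod_cast hN
    calc ∑ k ∈ Finset.range (n % N), |φ (f^[k] (f^[N * (n / N)] x)) -
          φ (f^[k] (f^[N * (n / N)] y))| ≤ ∑ k ∈ Finset.range (n % N), η / (2 * N) := by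
          apply Finset.sum_le_sum
          intro k hk
          rw [Finset.mem_range] at hk
          rw [← Function.iterate_add_apply, ← Function.iterate_add_apply]
          have h5 := (hxy (k + N * (n / N)) (by omega)).trans (min_le_right _ _)
          have h6 := h2 (lt_of_le_of_lt h5 (half_lt_self hε₂))
          rw [Real.dist_eq] at h6
          exact h6.le
      _ = (n % N : ℕ) * (η / (2 * N)) := by
          rw [Finset.sum_const, Finset.card_range, nsmul_eq_mul]
      _ ≤ N * (η / (2 * N)) := by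
          apply mul_le_mul_of_nonneg_right _ (by positivity)
          exact_mod_cast (Nat.mod_lt _ hN).le
      _ = η / 2 := by field_simp
  have h5 : birkhoffSum g (birkhoffSum f φ N) (n / N) x +
        birkhoffSum f φ (n % N) (f^[N * (n / N)] x) -
      (birkhoffSum g (birkhoffSum f φ N) (n / N) y +
        birkhoffSum f φ (n % N) (f^[N * (n / N)] y)) =
      (birkhoffSum g (birkhoffSum f φ N) (n / N) x - birkhoffSum g (birkhoffSum f φ N) (n / N) y) +
      (birkhoffSum f φ (n % N) (f^[N * (n / N)] x) -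
        birkhoffSum f φ (n % N) (f^[N * (n / N)] y)) := by ring
  rw [h5]
  refine (abs_add_le _ _).trans ?_
  linarith

end Pool.Agent.Run7.h934.AD
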