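import Pool.Agent.Run7.h934.AD.Top
import Pool.Agent.Y331.EP.Trans

/-!
# The closing lemma for `f` and the Livsic theorem for functions with the Walters property
(helper934)
-/

set_option autoImplicit false

open Filter Topology Set Metric

namespace Pool.Agent.Run7.h934.AD

open Pool.Agent.H789R2.AN Pool.Agent.H721R2 Pool.Agent.Y321.PJ Pool.Agent.TH289

variable {X : Type*} [MetricSpace X] {E : Type*} [NormedAddCommGroup E] [NormedSpace ℝ E]

/-- expansivity for periodic points -/
theorem eq_of_per {g : X ≃ₜ X} {c : ℝ} (h : LP g c) {L : ℕ} (hL : 1 ≤ L) {x y : X}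
    (hx : g^[L] x = x) (hy : g^[L] y = y) (hxy : SR g c x y) : x = y := by
  have key : ∀ m : ℕ, dist x y ≤ c * (1 / 2) ^ m := by
    intro m
    have h1 := h.cS _ _ hxy (L * m)
    rw [Function.iterate_mul, Function.iterate_fixed hx, Function.iterate_fixed hy] at h1
    refine h1.trans (mul_le_mul_of_nonneg_left ?_ h.c_pos.le)
    exact pow_le_pow_of_le_one (by norm_num) (by norm_num) (Nat.le_mul_of_pos_left _ hL)
  exact dist_le_zero.mp (ge_of_tendsto' (geo_tendsto c) key)

theorem pseudo_iter' [CompactSpace X] (f : X ≃ₜ X) (N : ℕ) {ε : ℝ} (hε : 0 < ε) :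
    ∃ δ > 0, ∀ c : ℕ → X, (∀ i, dist (f (c i)) (c (i + 1)) ≤ δ) →
      ∀ i ≤ N, dist (f^[i] (c 0)) (c i) ≤ ε := by
  induction N with
  | zero =>
    refine ⟨1, one_pos, fun c _ i hi => ?_⟩
    obtain rfl : i = 0 := by omega
    simpa using hε.le
  | succ N ih =>
    obtain ⟨δ, hδ, h1⟩ := ih
    obtain ⟨δ', hδ', h2⟩ := pseudo_iter f (N + 1) hε
    refine ⟨min δ δ', lt_min hδ hδ', fun c hc i hi => ?_⟩
    rcases Nat.lt_or_ge i (N + 1) with h3 | h3
    · exact h1 c (fun i => (hc i).trans (min_le_left _ _)) i (by omega)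
    · obtain rfl : i = N + 1 := by omega
      exact h2 c (fun i => (hc i).trans (min_le_right _ _))

/-- The closing lemma for `f`, from the hyperbolicity of `f^N`. -/
theorem closing_f [CompactSpace X] (S : HypSys X E) (f : X ≃ₜ X) {N : ℕ} (hN : 1 ≤ N)
    (hg : S.g = iterHomeo f N) {ε : ℝ} (hε : 0 < ε) : ∃ δ > 0, ∀ (y : X) (L : ℕ), 1 ≤ L →
      dist (f^[L] y) y ≤ δ → ∃ p, f^[L] p = p ∧ ∀ t < L, dist (f^[t] p) (f^[t] y) ≤ ε := by
  obtain ⟨c, h⟩ := exists_LP S
  have hc := h.c_pos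
  have hK := S.one_le_K
  have hK0 : 0 < S.K := by linarith
  obtain ⟨ε₀, hε₀, hper⟩ := Pool.Agent.Y321.PJ.per_shadow S h
  set ε₁ := min (ε / 2) (c / 4) with hε₁
  have hε₁0 : 0 < ε₁ := lt_min (half_pos hε) (by linarith)
  obtain ⟨η, hη, hunif⟩ := Pool.Agent.H789R2.GP.T1_unif f N hε₁0
  obtain ⟨ε₂, hε₂0, hε₂1, hε₂2⟩ : ∃ e : ℝ, 0 < e ∧ e ≤ ε₀ ∧ 8 * S.K * e < η := by
    refine ⟨min ε₀ (η / (9 * S.K)), lt_min hε₀ (by positivity), min_le_left _ _, ?_⟩
    have h1 : min ε₀ (η / (9 * S.K)) ≤ η / (9 * S.K) := min_le_right _ _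
    rw [le_div_iff₀ (by positivity)] at h1
    have h2 : 0 < min ε₀ (η / (9 * S.K)) := lt_min hε₀ (by positivity)
    nlinarith
  obtain ⟨δ, hδ, hps⟩ := pseudo_iter' f N (lt_min hε₁0 hε₂0)
  refine ⟨δ, hδ, fun y L hL hyL => ?_⟩
  set cc : ℕ → X := fun t => f^[t % L] y with hcc
  have hccL : ∀ t, cc (t + L) = cc t := fun t => by simp [hcc]
  have hstep : ∀ t, dist (f (cc t)) (cc (t + 1)) ≤ δ := by
    intro t
    have h1 : t % L < L := Nat.mod_lt _ hL
    rcases Nat.lt_or_ge (t % L + 1) L with h2 | h2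
    · have e : (t + 1) % L = t % L + 1 := by
        rw [Nat.add_mod, Nat.mod_eq_of_lt (a := 1) (b := L) (by omega)]
        exact Nat.mod_eq_of_lt h2
      show dist (f (f^[t % L] y)) (f^[(t + 1) % L] y) ≤ δ
      rw [e, Function.iterate_succ_apply', dist_self]
      exact hδ.le
    · have e0 : t % L + 1 = L := by omega
      have e : (t + 1) % L = 0 := by
        rw [← Nat.div_add_mod t L, add_assoc, e0, ← Nat.mul_succ]
        exact Nat.mul_mod_right _ _
      show dist (f (f^[t % L] y)) (f^[(t + 1) % L] y) ≤ δ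
      rw [e, ← Function.iterate_succ_apply' f, Nat.succ_eq_add_one, e0]
      exact hyL
  have hgN : ∀ y, S.g y = f^[N] y := fun y => by rw [hg]; rfl
  have hchain : ∀ s i, i ≤ N → dist (f^[i] (cc s)) (cc (s + i)) ≤ min ε₁ ε₂ := by
    intro s i hi
    exact hps (fun t => cc (s + t)) (fun t => hstep (s + t)) i hi
  have hzs : ∀ j, dist (S.g (cc (N * j))) (cc (N * (j + 1))) ≤ ε₂ := by
    intro j
    rw [hgN, Nat.mul_succ]
    exact (hchain (N * j) N le_rfl).trans (min_le_right _ _)
  have hccm : ∀ s j, cc (s + L * j) = cc s := by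
    intro s j
    simp [hcc]
  obtain ⟨p, hp, hpz⟩ := hper ε₂ hε₂1 L (fun j => cc (N * j)) hL (fun j _ => hzs j) (by
    have h1 := hzs (L - 1)
    rw [Nat.sub_add_cancel hL] at h1
    have e : cc (N * L) = cc (N * 0) := by
      have := hccm 0 N
      rw [Nat.zero_add, Nat.mul_comm] at this
      rw [this, Nat.mul_zero]
    rw [e] at h1
    exact h1)
  -- for all times
  have hpz' : ∀ j, dist (S.g^[j] p) (cc (N * j)) < η := by
    intro j
    have h1 := hpz (j % L) (Nat.mod_lt _ hL)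
    have e1 : S.g^[j % L] p = S.g^[j] p := Function.IsPeriodicPt.iterate_mod_apply hp j
    have e2 : cc (N * (j % L)) = cc (N * j) := by
      have h2 : N * j = N * (j % L) + L * (N * (j / L)) := by
        conv_lhs => rw [← Nat.mod_add_div j L]
        ring
      rw [h2, hccm]
    rw [e1, e2] at h1
    exact lt_of_le_of_lt h1 hε₂2
  have hall : ∀ t, dist (f^[t] p) (cc t) ≤ 2 * ε₁ := by
    intro t
    have hm : t % N < N := Nat.mod_lt _ hN
    have h1 := hunif (t % N) hm.le _ _ (hpz' (t / N))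
    have h2 := (hchain (N * (t / N)) (t % N) hm.le).trans (min_le_left _ _)
    have e1 : f^[t % N] (S.g^[t / N] p) = f^[t] p := by
      rw [hg, iterHomeo_iter, ← Function.iterate_add_apply]
      congr 1
      have := Nat.mod_add_div t N
      omega
    rw [Nat.div_add_mod] at h2
    rw [e1] at h1
    have := dist_triangle (f^[t] p) (f^[t % N] (cc (N * (t / N)))) (cc t)
    linarith
  have hfix : f^[L] p = p := by
    have hp' : S.g^[L] (f^[L] p) = f^[L] p := by
      have h1 : S.g^[L] (f^[L] p) = f^[L] (S.g^[L] p) := by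
        rw [hg, iterHomeo_iter, iterHomeo_iter, ← Function.iterate_add_apply,
          ← Function.iterate_add_apply, Nat.add_comm]
      rw [h1, hp]
    refine eq_of_per h hL hp' hp (fun j => ?_)
    have h1 := hall (N * j + L)
    have h2 := hall (N * j)
    rw [hccL] at h1
    have e1 : S.g^[j] (f^[L] p) = f^[N * j + L] p := by
      rw [hg, iterHomeo_iter, ← Function.iterate_add_apply]
    have e2 : S.g^[j] p = f^[N * j] p := by rw [hg, iterHomeo_iter]
    rw [e1, e2]
    have h3 : ε₁ ≤ c / 4 := min_le_right _ _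
    have := dist_triangle_right (f^[N * j + L] p) (f^[N * j] p) (cc (N * j))
    linarith
  refine ⟨p, hfix, fun t ht => ?_⟩
  have h1 := hall t
  have e : cc t = f^[t] y := by
    show f^[t % L] y = _
    rw [Nat.mod_eq_of_lt ht]
  rw [e] at h1
  have h3 : ε₁ ≤ ε / 2 := min_le_left _ _
  linarith

/-- the Walters property, for a distance -/
def Wal (f : X → X) (φ : X → ℝ) : Prop := ∀ η > 0, ∃ ε > 0, ∀ (n : ℕ) (x y : X),
  (∀ k < n, dist (f^[k] x) (f^[k] y) ≤ ε) → |birkhoffSum f φ n x - birkhoffSum f φ n y| ≤ η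

/-- **Livsic's theorem** for continuous functions with the Walters property. -/
theorem livsic [CompactSpace X] [Nonempty X] (S : HypSys X E) (f : X ≃ₜ X) {N : ℕ} (hN : 1 ≤ N)
    (hg : S.g = iterHomeo f N) (hT : TopTransitive f) {φ : X → ℝ} (hφ : Continuous φ)
    (hW : Wal f φ) (hper : ∀ (p : X) (T : ℕ), 1 ≤ T → f^[T] p = p → birkhoffSum f φ T p = 0) :
    ∃ u : X → ℝ, Continuous u ∧ ∀ x, φ x = u (f x) - u x := by
  classical
  -- a dense forward orbit
  obtain ⟨x₀, hx₀⟩ : ∃ x₀ : X, Dense (range fun n : ℕ => f^[n] x₀) := by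
    have hb := TopologicalSpace.isBasis_countableBasis X
    set B := TopologicalSpace.countableBasis X with hB
    have hd : Dense (⋂ U ∈ B, ⋃ n : ℕ, f^[n] ⁻¹' U) := by
      refine dense_biInter_of_isOpen (fun U hU => ?_)
        (TopologicalSpace.countable_countableBasis X) fun U hU => ?_
      · exact isOpen_iUnion fun n => (hb.isOpen hU).preimage (f.continuous.iterate n)
      · rw [dense_iff_inter_open]
        intro V hV hVn
        have hUn : U.Nonempty := TopologicalSpace.nonempty_of_mem_countableBasis hU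
        obtain ⟨n, w, ⟨v, hv, rfl⟩, hw⟩ := hT V U hV hVn (hb.isOpen hU) hUn
        exact ⟨v, hv, mem_iUnion.2 ⟨n, hw⟩⟩
    obtain ⟨y₀, hy₀⟩ := hd.nonempty
    refine ⟨y₀, ?_⟩
    rw [hb.dense_iff]
    intro U hU hUn
    obtain ⟨n, hn⟩ := mem_iUnion.1 (mem_iInter₂.1 hy₀ U hU)
    exact ⟨f^[n] y₀, hn, n, rfl⟩
  set i : ℕ → X := fun n => f^[n] x₀ with hi
  set s : ℕ → ℝ := fun n => birkhoffSum f φ n x₀ with hs
  -- uniform continuity along the orbit
  have hcau : ∀ η > 0, ∃ δ > 0, ∀ m n, dist (i m) (i n) ≤ δ → |s m - s n| ≤ η := by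
    intro η hη
    obtain ⟨ε, hε, h1⟩ := hW η hη
    obtain ⟨δ, hδ, h2⟩ := closing_f S f hN hg hε
    refine ⟨δ, hδ, ?_⟩
    have key : ∀ m n, m ≤ n → dist (i m) (i n) ≤ δ → |s m - s n| ≤ η := by
      intro m n hmn hd
      obtain ⟨L, rfl⟩ := Nat.exists_eq_add_of_le hmn
      rcases Nat.eq_zero_or_pos L with h3 | h3
      · subst h3
        simpa using hη.le
      · have e1 : i (m + L) = f^[L] (i m) := by
          show f^[m + L] x₀ = f^[L] (f^[m] x₀)
          rw [Nat.add_comm, Function.iterate_add_apply]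
        rw [e1, dist_comm] at hd
        obtain ⟨p, hp, h4⟩ := h2 (i m) L h3 hd
        have h5 := h1 L p (i m) h4
        rw [hper p L h3 hp, zero_sub, abs_neg] at h5
        have e2 : s (m + L) = s m + birkhoffSum f φ L (i m) := birkhoffSum_add f φ m L x₀
        rw [e2]
        have e3 : s m - (s m + birkhoffSum f φ L (i m)) = -birkhoffSum f φ L (i m) := by ring
        rw [e3, abs_neg]
        exact h5
    intro m n hd
    rcases le_total m n with h3 | h3
    · exact key m n h3 hd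
    · rw [abs_sub_comm]
      exact key n m h3 (by rwa [dist_comm])
  let _ : TopologicalSpace ℕ := TopologicalSpace.induced i inferInstance
  have hdi : IsDenseInducing i := ⟨⟨rfl⟩, hx₀⟩
  have hlim : ∀ b : X, ∃ c : ℝ, Tendsto s (comap i (𝓝 b)) (𝓝 c) := by
    intro b
    have : (comap i (𝓝 b)).NeBot := hdi.comap_nhds_neBot b
    apply cauchy_map_iff_exists_tendsto.mp
    rw [Metric.cauchy_iff]
    refine ⟨inferInstance, fun η hη => ?_⟩
    obtain ⟨δ, hδ, h1⟩ := hcau (η / 2) (half_pos hη)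
    refine ⟨s '' (i ⁻¹' ball b (δ / 2)), image_mem_map (preimage_mem_comap
      (ball_mem_nhds b (half_pos hδ))), ?_⟩
    rintro _ ⟨m, hm, rfl⟩ _ ⟨n, hn, rfl⟩
    rw [Real.dist_eq]
    have h2 : dist (i m) (i n) ≤ δ := by
      have h3 : dist (i m) b < δ / 2 := hm
      have h4 : dist (i n) b < δ / 2 := hn
      have := dist_triangle_right (i m) (i n) b
      linarith
    exact lt_of_le_of_lt (h1 m n h2) (by linarith)
  have hcont : Continuous (hdi.extend s) := hdi.continuous_extend hlim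
  have hval : ∀ n, hdi.extend s (i n) = s n := by
    intro n
    apply hdi.extend_eq_of_tendsto
    rw [← hdi.nhds_eq_comap n]
    rw [hdi.nhds_eq_comap n, Metric.tendsto_nhds]
    intro η hη
    obtain ⟨δ, hδ, h1⟩ := hcau (η / 2) (half_pos hη)
    filter_upwards [preimage_mem_comap (ball_mem_nhds (i n) hδ)] with m hm
    rw [Real.dist_eq]
    exact lt_of_le_of_lt (h1 m n (le_of_lt hm)) (by linarith)
  refine ⟨hdi.extend s, hcont, ?_⟩
  have hcl : IsClosed {x | φ x = hdi.extend s (f x) - hdi.extend s x} :=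
    isClosed_eq hφ ((hcont.comp f.continuous).sub hcont)
  intro x
  have hsub : range i ⊆ {x | φ x = hdi.extend s (f x) - hdi.extend s x} := by
    rintro _ ⟨n, rfl⟩
    have e1 : f (i n) = i (n + 1) := (Function.iterate_succ_apply' f n x₀).symm
    show φ (i n) = hdi.extend s (f (i n)) - hdi.extend s (i n)
    rw [e1, hval, hval]
    have e2 : s (n + 1) = s n + φ (i n) := birkhoffSum_succ f φ n x₀
    rw [e2]
    ring
  have h1 := hcl.closure_subset_iff.mpr hsub
  rw [hx₀.closure_eq] at h1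
  exact h1 trivial

end Pool.Agent.Run7.h934.AD
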