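import Pool.Agent.Run7.h934.AD.Obs
import Pool.Agent.Run7.h934.AD.Hol
import Pool.Agent.Run7.h934.AD.Liv

/-!
# The Livsic dichotomy for Anosov diffeomorphisms (helper934)
-/

set_option autoImplicit false
set_option linter.unusedSectionVars false

open scoped Manifold ContDiff Topology
open Set Filter Metric

namespace Pool.Agent.Run7.h934.AD

open Pool.Agent.H789R2.AN Pool.Agent.H721R2 Pool.Agent.Y321.PJ Pool.Agent.TH289

/-- zero sums over the periodic orbits -/
def ZPer {M : Type*} (f : M → M) (φ : M → ℝ) : Prop :=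
  ∀ (p : M) (n : ℕ), f^[n] p = p → birkhoffSum f φ n p = 0

/-- the Walters property, without metric -/
def WalU {M : Type*} [TopologicalSpace M] (f : M → M) (φ : M → ℝ) : Prop :=
  ∀ η > 0, ∃ 𝒰 ∈ 𝓝ˢ (diagonal M), ∀ (n : ℕ) (x y : M),
    (∀ k < n, (f^[k] x, f^[k] y) ∈ 𝒰) → |birkhoffSum f φ n x - birkhoffSum f φ n y| ≤ η

theorem walU_iff {X : Type*} [MetricSpace X] [CompactSpace X] (f : X → X) (φ : X → ℝ) :
    WalU f φ ↔ Wal f φ := by
  constructor
  · intro h η hη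
    obtain ⟨𝒰, h𝒰, h1⟩ := h η hη
    rw [nhdsSet_diagonal_eq_uniformity, Metric.mem_uniformity_dist] at h𝒰
    obtain ⟨ε, hε, h2⟩ := h𝒰
    exact ⟨ε / 2, half_pos hε, fun n x y hxy => h1 n x y fun k hk =>
      h2 ((hxy k hk).trans_lt (half_lt_self hε))⟩
  · intro h η hη
    obtain ⟨ε, hε, h1⟩ := h η hη
    refine ⟨{p | dist p.1 p.2 < ε}, ?_, fun n x y hxy => h1 n x y fun k hk => (hxy k hk).le⟩
    rw [nhdsSet_diagonal_eq_uniformity]
    exact Metric.dist_mem_uniformity hε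

section main

variable {E : Type*} [NormedAddCommGroup E] [NormedSpace ℝ E] [FiniteDimensional ℝ E]
  {M : Type*} [TopologicalSpace M] [T2Space M] [CompactSpace M] [ConnectedSpace M]
  [ChartedSpace E M] [IsManifold 𝓘(ℝ, E) ∞ M]

/-- The space of obstructions is infinite-dimensional. -/
theorem no_finite {M : Type*} [MetricSpace M] [ConnectedSpace M] [Nontrivial M]
    [ChartedSpace E M] {d : ℕ} {e : M → EuclideanSpace ℝ (Fin d)}
    (hiso : ∀ x y, dist x y = ‖e x - e y‖) (he : ContMDiff 𝓘(ℝ, E) (𝓡 d) ∞ e)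
    (f : M → M) {W H : Set M} (hWo : IsOpen W) (hWn : W.Nonempty)
    (hWd : ∀ n : ℕ, 1 ≤ n → Disjoint (f^[n] '' W) W)
    (hH : ∀ V ⊆ W, IsOpen V → V.Nonempty → (V ∩ H).Nonempty)
    (hob : ∀ Φ U : M → ℝ, (∀ x, x ∉ W → Φ x = 0) →
        (∀ p ∈ Function.periodicPts f, ContinuousAt U p) → (∀ x, Φ x = U (f x) - U x) →
        ∃ a, ∀ x ∈ W ∩ H, Φ x = a) (m : ℕ) (h : Fin m → M → ℝ) :
    ¬ ∀ φ : M → ℝ, ContMDiff 𝓘(ℝ, E) 𝓘(ℝ, ℝ) ∞ φ → tsupport φ ⊆ Wnd f →
      ∃ (a : Fin m → ℝ) (u : M → ℝ), (∀ p ∈ Function.periodicPts f, ContinuousAt u p) ∧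
        ∀ x, φ x = ∑ i, a i * h i x + (u (f x) - u x) := by
  classical
  intro hall
  -- infinitely many points
  have hinf : (W ∩ H).Infinite := by
    intro hfin
    have h1 : W.Infinite := by
      obtain ⟨x, hx⟩ := hWn
      have : (𝓝[≠] x).NeBot := ConnectedSpace.neBot_nhdsWithin_compl_of_nontrivial_of_t1space x
      exact infinite_of_mem_nhds x (hWo.mem_nhds hx)
    have h2 : (W \ (W ∩ H)).Nonempty := (h1.sdiff hfin).nonempty
    obtain ⟨y, hy1, hy2⟩ := hH _ sdiff_subset (hWo.sdiff hfin.isClosed) h2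
    exact hy1.2 ⟨hy1.1, hy2⟩
  set ν := hinf.natEmbedding
  set x : Fin (m + 2) → M := fun i => ν i with hx
  have hxm : ∀ i, x i ∈ W ∩ H := fun i => (ν i).2
  have hxinj : Function.Injective x := by
    intro i j hij
    exact Fin.ext (ν.injective (Subtype.ext hij))
  -- the radius
  obtain ⟨r, hr0, hr1, hr2⟩ : ∃ r : ℝ, 0 < r ∧ (∀ i, closedBall (x i) r ⊆ W) ∧
      ∀ i j, i ≠ j → r < dist (x i) (x j) := by
    have h1 : ∀ i, ∀ᶠ r : ℝ in 𝓝[>] 0, closedBall (x i) r ⊆ W := by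
      intro i
      obtain ⟨ε, hε, h2⟩ := Metric.nhds_basis_closedBall.mem_iff.mp (hWo.mem_nhds (hxm i).1)
      filter_upwards [(gt_mem_nhds hε).filter_mono nhdsWithin_le_nhds] with r hr
      exact (closedBall_subset_closedBall hr.le).trans h2
    have h2 : ∀ i j, i ≠ j → ∀ᶠ r : ℝ in 𝓝[>] 0, r < dist (x i) (x j) := by
      intro i j hij
      exact (gt_mem_nhds (dist_pos.mpr (hxinj.ne hij))).filter_mono nhdsWithin_le_nhds
    have h3 : ∀ᶠ r : ℝ in 𝓝[>] 0, ∀ i, closedBall (x i) r ⊆ W := eventually_all.mpr h1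
    have h4 : ∀ᶠ r : ℝ in 𝓝[>] 0, ∀ i j, i ≠ j → r < dist (x i) (x j) := by
      refine eventually_all.mpr fun i => eventually_all.mpr fun j => ?_
      by_cases hij : i = j
      · exact Eventually.of_forall fun r h => absurd hij h
      · filter_upwards [h2 i j hij] with r hr _ using hr
    obtain ⟨r, h5, h6, h7⟩ := (h3.and (h4.and self_mem_nhdsWithin)).exists
    exact ⟨r, h7, h5, h6⟩
  -- the bumps
  let B : Fin (m + 2) → M → ℝ := fun i y =>
    (⟨r / 2, r, half_pos hr0, half_lt_self hr0⟩ : ContDiffBump (e (x i))) (e y)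
  have hB1 : ∀ i, B i (x i) = 1 := by
    intro i
    apply ContDiffBump.one_of_mem_closedBall
    exact mem_closedBall_self (half_pos hr0).le
  have hB0 : ∀ i y, r ≤ dist y (x i) → B i y = 0 := by
    intro i y hy
    apply ContDiffBump.zero_of_le_dist
    rw [dist_eq_norm, ← hiso]
    exact hy
  have hBs : ∀ i, ContMDiff 𝓘(ℝ, E) 𝓘(ℝ, ℝ) ∞ (B i) := by
    intro i
    exact (ContDiffBump.contDiff _).contMDiff.comp he
  have hBt : ∀ i, tsupport (B i) ⊆ W := by
    intro i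
    refine (closure_minimal ?_ isClosed_closedBall).trans (hr1 i)
    intro y hy
    by_contra hcon
    rw [mem_closedBall, not_le] at hcon
    exact hy (hB0 i y hcon.le)
  have hWW : W ⊆ Wnd f := fun y hy => ⟨W, hWo.mem_nhds hy, hWd⟩
  choose a u hu hau using fun i : Fin (m + 1) => hall (B i.castSucc) (hBs _) ((hBt _).trans hWW)
  -- dependence
  have hdep : ¬ LinearIndependent ℝ a := by
    intro hli
    have h1 := hli.fintype_card_le_finrank
    simp at h1
  rw [Fintype.not_linearIndependent_iff] at hdep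
  obtain ⟨c, hc0, i₀, hi₀⟩ := hdep
  obtain ⟨t, ht⟩ := hob (fun y => ∑ i, c i * B i.castSucc y) (fun y => ∑ i, c i * u i y)
    (fun y hy => Finset.sum_eq_zero fun i _ => by
      rw [image_eq_zero_of_notMem_tsupport (fun h' => hy (hBt _ h')), mul_zero])
    (fun p hp => by
      have := fun i => hu i p hp
      exact tendsto_finsetSum _ fun i _ => (this i).const_mul (c i))
    (fun y => by
      have h1 : ∀ i, c i * B i.castSucc y =
          ∑ k, (c i * a i k) * h k y + (c i * u i (f y) - c i * u i y) := by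
        intro i
        rw [hau i y, mul_add, Finset.mul_sum, mul_sub]
        congr 1
        exact Finset.sum_congr rfl fun k _ => by ring
      simp only [h1]
      rw [Finset.sum_add_distrib, Finset.sum_sub_distrib, Finset.sum_comm]
      have h2 : ∑ k, ∑ i, (c i * a i k) * h k y = 0 := by
        apply Finset.sum_eq_zero
        intro k _
        rw [← Finset.sum_mul]
        have h3 := congrFun hc0 k
        simp only [Finset.sum_apply, Pi.smul_apply, smul_eq_mul, Pi.zero_apply] at h3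
        rw [h3, zero_mul]
      rw [h2, zero_add])
  have hBx : ∀ (i j : Fin (m + 2)), i ≠ j → B i (x j) = 0 := by
    intro i j hij
    exact hB0 i _ (hr2 j i hij.symm).le
  have ht0 : t = 0 := by
    rw [← ht _ (hxm (Fin.last (m + 1)))]
    apply Finset.sum_eq_zero
    intro i _
    rw [hBx _ _ (Fin.castSucc_lt_last i).ne, mul_zero]
  have h1 := ht _ (hxm i₀.castSucc)
  rw [ht0, Finset.sum_eq_single i₀] at h1
  · rw [hB1, mul_one] at h1
    exact hi₀ h1
  · intro i _ hi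
    rw [hBx _ _ (fun h' => hi (Fin.castSucc_injective _ h')), mul_zero]
  · intro h'
    exact absurd (Finset.mem_univ _) h'

theorem man_livsic (f : Diffeomorph 𝓘(ℝ, E) 𝓘(ℝ, E) M M 1)
    (Es Eu : ∀ x : M, Submodule ℝ (TangentSpace 𝓘(ℝ, E) x)) (hA : IsAnosov f Es Eu) :
    List.TFAE [TopTransitive f,
      ∀ φ : M → ℝ, Continuous φ → WalU f φ → ZPer f φ →
        ∃ u : M → ℝ, Continuous u ∧ ∀ x, φ x = u (f x) - u x,
      ∀ φ : M → ℝ, IsHolder E φ → ZPer f φ →
        ∃ u : M → ℝ, Continuous u ∧ ∀ x, φ x = u (f x) - u x,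
      ∀ φ : M → ℝ, ContMDiff 𝓘(ℝ, E) 𝓘(ℝ, ℝ) ∞ φ →
        (∃ C : ℝ, ∀ (n : ℕ) (x : M), |birkhoffSum f φ n x| ≤ C) →
        ∃ u : M → ℝ, Continuous u ∧ ∀ x, φ x = u (f x) - u x,
      ∃ (m : ℕ) (h : Fin m → M → ℝ), ∀ φ : M → ℝ, ContMDiff 𝓘(ℝ, E) 𝓘(ℝ, ℝ) ∞ φ →
        tsupport φ ⊆ Wnd f →
        ∃ (a : Fin m → ℝ) (u : M → ℝ), (∀ p ∈ Function.periodicPts f, ContinuousAt u p) ∧
          ∀ x, φ x = ∑ i, a i * h i x + (u (f x) - u x)] := by
  obtain ⟨d, e, he, hemb, hinj⟩ := exists_embedding_euclidean_of_compact (I := 𝓘(ℝ, E)) (M := M)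
  let _ : MetricSpace M := hemb.isEmbedding.comapMetricSpace e
  have hiso : ∀ x y : M, dist x y = ‖e x - e y‖ := fun x y => dist_eq_norm (e x) (e y)
  have he1 : ContMDiff 𝓘(ℝ, E) (𝓡 d) 1 e := he.of_le (by simp)
  obtain ⟨N, S, hN, hg⟩ := exists_sys1 hiso he1 hinj f Es Eu hA
  obtain ⟨K, hK⟩ : ∃ K : NNReal, LipschitzWith K f := by
    obtain ⟨K, hK⟩ := c1_lip hiso he1 hinj (fun x => e (f x)) (he1.comp f.contMDiff)
    refine ⟨K, LipschitzWith.of_dist_le_mul fun x y => ?_⟩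
    have := hK.dist_le_mul x y
    rwa [dist_eq_norm (e (f x)), ← hiso] at this
  tfae_have 1 → 2 := by
    intro hT φ hφ hW hZ
    exact livsic S f.toHomeomorph hN hg hT hφ ((walU_iff f φ).mp hW)
      fun p T _ hp => hZ p T hp
  tfae_have 2 → 3 := by
    intro h φ hφ hZ
    obtain ⟨L, α, r, hL, hα, hα1, hr, hH⟩ := hol_of_isHolder hiso he1 hinj hφ
    have hc : Continuous φ := Hol.continuous hα hr hH
    refine h φ hc ((walU_iff f φ).mpr ?_) hZ
    obtain ⟨L', r', hL', hr', hH'⟩ := Hol.sum hK hL hα hr hH N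
    exact wal_of_iter (f := f.toHomeomorph) hN hg hc (wal_hol_g S hL' hα hα1 hr' hH')
  tfae_have 3 → 4 := by
    rintro h φ hφ ⟨C, hC⟩
    exact h φ (isHolder_of_c1 φ (hφ.of_le (by simp))) fun p n hp => zero_of_bdd hC hp
  tfae_have 4 → 5 := by
    intro h
    refine ⟨0, fun i => i.elim0, fun φ hφ hs => ?_⟩
    obtain ⟨u, hu, h1⟩ := h φ hφ (bdd_of_wnd f hφ.continuous hs)
    exact ⟨fun i => i.elim0, u, fun p _ => hu.continuousAt, fun x => by
      rw [Finset.univ_eq_empty, Finset.sum_empty, zero_add]; exact h1 x⟩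
  tfae_have 5 → 1 := by
    rintro ⟨m, h, hall⟩
    by_contra hnt
    rcases subsingleton_or_nontrivial M with hs | hs
    · apply hnt
      rintro U V - ⟨x, hx⟩ - ⟨y, hy⟩
      exact ⟨0, x, ⟨x, hx, rfl⟩, by rwa [Subsingleton.elim x y]⟩
    obtain ⟨W, H, hWo, hWn, hWd, hH, hob⟩ := obst S f.toHomeomorph hN hg hnt
    exact no_finite hiso he f hWo hWn hWd hH hob m h hall
  tfae_finish

end main

end Pool.Agent.Run7.h934.AD
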