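import Pool.Agent.Run7.h934.AD.LeafMain

/-!
# The obstructions to the cohomological equation in the wandering set (helper934)
-/

set_option autoImplicit false

open Filter Topology Set Metric

namespace Pool.Agent.Run7.h934.AD

open Pool.Agent.H789R2.AN Pool.Agent.H721R2 Pool.Agent.Y321.PJ Pool.Agent.TH289

/-- the wandering set -/
def Wnd {X : Type*} [TopologicalSpace X] (f : X → X) : Set X :=
  {x | ∃ W ∈ 𝓝 x, ∀ n : ℕ, 1 ≤ n → Disjoint (f^[n] '' W) W}

/-- Functions supported in the wandering set have bounded Birkhoff sums. -/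
theorem bdd_of_wnd {X : Type*} [TopologicalSpace X] [CompactSpace X] (f : X → X) {φ : X → ℝ}
    (hφ : Continuous φ) (hs : tsupport φ ⊆ Wnd f) :
    ∃ C : ℝ, ∀ (n : ℕ) (x : X), |birkhoffSum f φ n x| ≤ C := by
  classical
  have hK : IsCompact (tsupport φ) := (isClosed_tsupport φ).isCompact
  obtain ⟨B, hB⟩ : ∃ B, ∀ x, ‖φ x‖ ≤ B := by
    obtain ⟨B, hB⟩ := (isCompact_univ (X := X)).exists_bound_of_continuousOn hφ.continuousOn
    exact ⟨B, fun x => hB x trivial⟩
  have hch : ∀ x, ∃ W : Set X, x ∈ tsupport φ →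
      W ∈ 𝓝 x ∧ ∀ n : ℕ, 1 ≤ n → Disjoint (f^[n] '' W) W := by
    intro x
    by_cases hx : x ∈ tsupport φ
    · obtain ⟨W, hW, h⟩ := hs hx
      exact ⟨W, fun _ => ⟨hW, h⟩⟩
    · exact ⟨∅, fun h => absurd h hx⟩
  choose W hW using hch
  obtain ⟨t, ht, hcov⟩ := hK.elim_nhds_subcover W (fun x hx => (hW x hx).1)
  refine ⟨B * t.card, fun n y => ?_⟩
  rcases isEmpty_or_nonempty X with hX | ⟨⟨x₁⟩⟩
  · exact (hX.false y).elim
  have hB0 : 0 ≤ B := (norm_nonneg _).trans (hB y)
  have h1 : ∀ k, |φ (f^[k] y)| ≤ if f^[k] y ∈ tsupport φ then B else 0 := by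
    intro k
    split_ifs with h
    · exact hB _
    · rw [image_eq_zero_of_notMem_tsupport h, abs_zero]
  have h2 : ((Finset.range n).filter fun k => f^[k] y ∈ tsupport φ).card ≤ t.card := by
    have h3 : ((Finset.range n).filter fun k => f^[k] y ∈ tsupport φ) ⊆
        t.biUnion fun x => (Finset.range n).filter fun k => f^[k] y ∈ W x := by
      intro k hk
      rw [Finset.mem_filter] at hk
      obtain ⟨x, hx, hkx⟩ := mem_iUnion₂.mp (hcov hk.2)
      exact Finset.mem_biUnion.mpr ⟨x, hx, Finset.mem_filter.mpr ⟨hk.1, hkx⟩⟩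
    refine (Finset.card_le_card h3).trans (Finset.card_biUnion_le.trans ?_)
    calc ∑ x ∈ t, ((Finset.range n).filter fun k => f^[k] y ∈ W x).card ≤ ∑ x ∈ t, 1 := by
          apply Finset.sum_le_sum
          intro x hx
          have key : ∀ a b, a < b → f^[a] y ∈ W x → f^[b] y ∈ W x → False := by
            intro a b hab ha hb
            obtain ⟨j, hj⟩ := Nat.exists_eq_add_of_le hab.le
            have h4 := (hW x (ht x hx)).2 j (by omega)
            refine (Set.disjoint_left.mp h4) ⟨f^[a] y, ha, ?_⟩ hb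
            rw [hj, Nat.add_comm, Function.iterate_add_apply]
          rw [Finset.card_le_one]
          intro a ha b hb
          rw [Finset.mem_filter] at ha hb
          rcases lt_trichotomy a b with h4 | h4 | h4
          · exact (key a b h4 ha.2 hb.2).elim
          · exact h4
          · exact (key b a h4 hb.2 ha.2).elim
      _ = t.card := by simp
  rw [birkhoffSum]
  refine (Finset.abs_sum_le_sum_abs _ _).trans ?_
  calc ∑ k ∈ Finset.range n, |φ (f^[k] y)|
      ≤ ∑ k ∈ Finset.range n, (if f^[k] y ∈ tsupport φ then B else 0) :=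
        Finset.sum_le_sum fun k _ => h1 k
    _ = B * ((Finset.range n).filter fun k => f^[k] y ∈ tsupport φ).card := by
        rw [← Finset.sum_filter, Finset.sum_const, nsmul_eq_mul, mul_comm]
    _ ≤ B * t.card := mul_le_mul_of_nonneg_left (by exact_mod_cast h2) hB0

theorem zero_of_bdd {X : Type*} {f : X → X} {φ : X → ℝ} {C : ℝ}
    (h : ∀ (n : ℕ) (x : X), |birkhoffSum f φ n x| ≤ C) {p : X} {T : ℕ} (hp : f^[T] p = p) :
    birkhoffSum f φ T p = 0 := by
  have h1 : ∀ k : ℕ, birkhoffSum f φ (T * k) p = k * birkhoffSum f φ T p := by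
    intro k
    induction k with
    | zero => simp [birkhoffSum]
    | succ k ih =>
      rw [Nat.mul_succ, birkhoffSum_add, ih, Function.iterate_mul, Function.iterate_fixed hp]
      push_cast
      ring
  by_contra hne
  have hpos : 0 < |birkhoffSum f φ T p| := abs_pos.mpr hne
  obtain ⟨k, hk⟩ := exists_nat_gt (C / |birkhoffSum f φ T p|)
  rw [div_lt_iff₀ hpos] at hk
  have h2 := h (T * k) p
  rw [h1, abs_mul, Nat.abs_cast] at h2
  linarith

variable {X : Type*} [MetricSpace X] {E : Type*} [NormedAddCommGroup E] [NormedSpace ℝ E]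

/-- The obstructions: a coboundary supported in a suitable wandering set `W` is constant on a dense
subset of `W`. -/
theorem obst [CompactSpace X] [ConnectedSpace X] (S : HypSys X E) (f : X ≃ₜ X) {N : ℕ}
    (hN : 1 ≤ N) (hg : S.g = iterHomeo f N) (hnt : ¬ TopTransitive f) :
    ∃ W H : Set X, IsOpen W ∧ W.Nonempty ∧ (∀ n : ℕ, 1 ≤ n → Disjoint (f^[n] '' W) W) ∧
      (∀ V ⊆ W, IsOpen V → V.Nonempty → (V ∩ H).Nonempty) ∧
      ∀ Φ U : X → ℝ, (∀ x, x ∉ W → Φ x = 0) →
        (∀ p ∈ Function.periodicPts f, ContinuousAt U p) → (∀ x, Φ x = U (f x) - U x) →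
        ∃ a, ∀ x ∈ W ∩ H, Φ x = a := by
  obtain ⟨c, h⟩ := exists_LP S
  have hnt' := mt (trans_of_iter hg) hnt
  have hgN : ∀ y, S.g y = f^[N] y := fun y => by rw [hg]; rfl
  obtain ⟨A, R, hA, hR, hne⟩ := exists_connection h isOpen_univ univ_nonempty
  rw [univ_inter] at hne
  obtain ⟨p, hp, m, hm, hpm⟩ := exists_per S h hA
  obtain ⟨q, hq, m', hm', hqm'⟩ := exists_per S.symm h.symm hR
  have hqm : S.g^[m'] q = q := per_symm (g := S.g.symm) hqm'
  obtain ⟨x₀, hx₀A, hx₀R⟩ := hne
  have htot : ∀ x, x ∈ Bas S.g A → x ∈ Bas S.g (Tot S.g) := fun x ⟨a, ha, hxa⟩ =>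
    ⟨a, ⟨A, hA, ha⟩, hxa⟩
  have htot' : ∀ x, x ∈ Bas S.g.symm R → x ∈ Bas S.g.symm (Tot S.g.symm) := fun x ⟨a, ha, hxa⟩ =>
    ⟨a, ⟨R, hR, ha⟩, hxa⟩
  obtain ⟨W₀, hW₀o, hW₀x, hW₀d⟩ := wandering_nhds (f := f) h hN hgN (disjoint_tot h hnt')
    (htot _ hx₀A) (htot' _ hx₀R)
  set W : Set X := W₀ ∩ Bas S.g A ∩ Bas S.g.symm R with hW
  have hWo : IsOpen W := (hW₀o.inter (isOpen_bas h hA.1)).inter (isOpen_bas h.symm hR.1)
  have hWd : ∀ n : ℕ, 1 ≤ n → Disjoint (f^[n] '' W) W := by
    intro n hn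
    refine (hW₀d n hn).mono (image_mono ?_) ?_
    · exact fun x hx => hx.1.1
    · exact fun x hx => hx.1.1
  refine ⟨W, {x | ∃ j k : ℕ, WS S.g (S.g.symm^[k] p) x ∧ WS S.g.symm (S.g^[j] q) x}, hWo,
    ⟨x₀, ⟨hW₀x, hx₀A⟩, hx₀R⟩, hWd, ?_, ?_⟩
  · intro V hVW hV hVn
    obtain ⟨v, hv⟩ := hVn
    obtain ⟨j, k, x, hxV, h1, h2⟩ := exists_heteroclinic h hA hR hV
      ⟨v, ⟨hv, (hVW hv).1.2⟩, (hVW hv).2⟩ hp hq
    exact ⟨x, hxV, j, k, h1, h2⟩
  · intro Φ U hΦ hU hΦU
    -- periodic points are not in `W`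
    have hper : ∀ z ∈ Function.periodicPts f, Φ z = 0 := by
      rintro z ⟨n, hn, hz⟩
      apply hΦ
      intro hzW
      exact (Set.disjoint_left.mp (hWd n hn)) ⟨z, hzW, hz⟩ hzW
    have hUper : ∀ z ∈ Function.periodicPts f, U (f z) = U z := by
      intro z hz
      have h1 := hΦU z
      rw [hper z hz] at h1
      linarith
    have hfper : ∀ z ∈ Function.periodicPts f, f z ∈ Function.periodicPts f := by
      rintro z ⟨n, hn, hz⟩
      exact ⟨n, hn, hz.apply⟩
    have hUn : ∀ (n : ℕ) (z : X), z ∈ Function.periodicPts f → U (f^[n] z) = U z ∧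
        f^[n] z ∈ Function.periodicPts f := by
      intro n
      induction n with
      | zero => exact fun z hz => ⟨rfl, hz⟩
      | succ n ih =>
        intro z hz
        obtain ⟨h1, h2⟩ := ih z hz
        rw [Function.iterate_succ_apply']
        exact ⟨(hUper _ h2).trans h1, hfper _ h2⟩
    have hgk : ∀ k y, S.g^[k] y = f^[N * k] y := fun k y => by rw [hg]; exact iterHomeo_iter f N k y
    -- the values at the periodic points
    have hpP : ∀ k, S.g.symm^[k] p ∈ Function.periodicPts f := fun k =>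
      mem_periodic hN hg hm (per_back hpm k)
    have hqP : ∀ j, S.g^[j] q ∈ Function.periodicPts f := fun j =>
      mem_periodic hN hg hm' (per_iter hqm j)
    have hUp : ∀ k, U (S.g.symm^[k] p) = U p := by
      intro k
      have h1 := (hUn (N * k) _ (hpP k)).1
      rw [← hgk, iterR] at h1
      exact h1.symm
    have hUq : ∀ j, U (S.g^[j] q) = U q := by
      intro j
      have h1 := (hUn (N * j) q (hqP 0)).1
      rwa [← hgk] at h1
    refine ⟨U p - U q, ?_⟩
    rintro x ⟨hxW, j, k, h4, h5⟩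
    -- forward
    have hfw : ∀ n : ℕ, U (f^[n + 1] x) = U x + Φ x := by
      intro n
      induction n with
      | zero =>
        have := hΦU x
        show U (f x) = _
        linarith
      | succ n ih =>
        have h6 : Φ (f^[n + 1] x) = 0 := by
          apply hΦ
          intro hW'
          exact (Set.disjoint_left.mp (hWd (n + 1) (by omega))) ⟨x, hxW, rfl⟩ hW'
        have h7 := hΦU (f^[n + 1] x)
        rw [h6, ← Function.iterate_succ_apply' f] at h7
        show U (f^[n + 1 + 1] x) = _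
        have h8 : U (f^[(n + 1).succ] x) = U (f^[n + 1] x) := by linarith
        rw [← ih]
        exact h8
    have hbw : ∀ n : ℕ, U (f.symm^[n] x) = U x := by
      intro n
      induction n with
      | zero => rfl
      | succ n ih =>
        have h6 : Φ (f.symm^[n + 1] x) = 0 := by
          apply hΦ
          intro hW'
          exact (Set.disjoint_left.mp (hWd (n + 1) (by omega)))
            ⟨f.symm^[n + 1] x, hW', iterR f (n + 1) x⟩ hxW
        have h7 := hΦU (f.symm^[n + 1] x)
        rw [h6, Function.iterate_succ_apply', f.apply_symm_apply, ih] at h7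
        rw [Function.iterate_succ_apply']
        linarith
    have hT : ∀ {s : ℕ} (_ : 1 ≤ s), Tendsto (fun l : ℕ => s * (l + 1)) atTop atTop := by
      intro s hs
      exact (tendsto_id.const_mul_atTop' (by omega)).comp (tendsto_add_atTop_nat 1)
    have e1 : U x + Φ x = U p := by
      have h6 : Tendsto (fun l : ℕ => S.g^[m * (l + 1)] x) atTop (𝓝 (S.g.symm^[k] p)) := by
        rw [tendsto_iff_dist_tendsto_zero]
        have h7 := Tendsto.comp h4 (hT hm)
        refine h7.congr fun l => ?_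
        show dist (S.g^[m * (l + 1)] (S.g.symm^[k] p)) (S.g^[m * (l + 1)] x) = _
        rw [Function.iterate_mul S.g m (l + 1), Function.iterate_fixed (per_back hpm k), dist_comm]
      have h7 := (hU _ (hpP k)).tendsto.comp h6
      rw [hUp] at h7
      have h8 : ∀ l : ℕ, (U ∘ fun l : ℕ => S.g^[m * (l + 1)] x) l = U x + Φ x := by
        intro l
        show U (S.g^[m * (l + 1)] x) = _
        rw [hgk]
        obtain ⟨i, hi⟩ : ∃ i, N * (m * (l + 1)) = i + 1 :=
          ⟨N * (m * (l + 1)) - 1, (Nat.sub_add_cancel (Nat.mul_pos hN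
            (Nat.mul_pos hm (Nat.succ_pos l)))).symm⟩
        rw [hi]
        exact hfw i
      exact tendsto_nhds_unique ((tendsto_congr h8).mpr tendsto_const_nhds) h7
    have e2 : U x = U q := by
      have hqb : S.g.symm^[m'] (S.g^[j] q) = S.g^[j] q := per_symm (per_iter hqm j)
      have h6 : Tendsto (fun l : ℕ => S.g.symm^[m' * (l + 1)] x) atTop (𝓝 (S.g^[j] q)) := by
        rw [tendsto_iff_dist_tendsto_zero]
        have h7 := Tendsto.comp h5 (hT hm')
        refine h7.congr fun l => ?_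
        show dist (S.g.symm^[m' * (l + 1)] (S.g^[j] q)) (S.g.symm^[m' * (l + 1)] x) = _
        rw [Function.iterate_mul S.g.symm m' (l + 1), Function.iterate_fixed hqb, dist_comm]
      have h7 := (hU _ (hqP j)).tendsto.comp h6
      rw [hUq] at h7
      have h8 : ∀ l : ℕ, (U ∘ fun l : ℕ => S.g.symm^[m' * (l + 1)] x) l = U x := by
        intro l
        show U (S.g.symm^[m' * (l + 1)] x) = _
        rw [hg, iterHomeo_symm_iter]
        exact hbw _
      exact tendsto_nhds_unique ((tendsto_congr h8).mpr tendsto_const_nhds) h7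
    linarith

end Pool.Agent.Run7.h934.AD
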