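import Pool.Agent.Y321.PJ.Abs
import Pool.Agent.TH289.Closing

/-!
# Attractors and repellers of hyperbolic homeomorphisms (helper934)

A minimal attractor that meets a minimal repeller is everything; points going from the repellers to
the attractors are wandering.
-/

set_option autoImplicit false

open Filter Topology Set Metric

namespace Pool.Agent.Run7.h934.AD

open Pool.Agent.H789R2.AN Pool.Agent.H721R2 Pool.Agent.Y321.PJ

variable {X : Type*} [MetricSpace X]

/-- A nonempty closed set that is saturated by stable and by unstable sets is everything. -/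
theorem univ_of_sat [ConnectedSpace X] {g : X ≃ₜ X} {c : ℝ} (h : LP g c) {A : Set X}
    (hc : IsClosed A) (hn : A.Nonempty) (hs : ∀ x ∈ A, ∀ y, WS g x y → y ∈ A)
    (hu : ∀ x ∈ A, ∀ y, WS g.symm x y → y ∈ A) : A = univ := by
  obtain ⟨δ, hδ, hlp⟩ := h.lp c h.c_pos
  have ho : IsOpen A := by
    rw [Metric.isOpen_iff]
    intro x hx
    refine ⟨δ, hδ, fun y hy => ?_⟩
    obtain ⟨z, h1, h2⟩ := hlp x y (by rw [dist_comm]; exact hy)
    have h3 : z ∈ A := hs x hx z (WS.of_SR (h.cS _ _ h1))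
    exact hu z h3 y (WS.of_SR (h.cU _ _ h2)).symm'
  exact IsClopen.eq_univ ⟨hc, ho⟩ hn

/-- the complement of the basin is a repeller -/
theorem compl_bas_att [CompactSpace X] {g : X ≃ₜ X} {c : ℝ} (h : LP g c) {A : Set X}
    (hA : IsAtt g A) (hne : (Bas g A)ᶜ.Nonempty) : IsAtt g.symm (Bas g A)ᶜ where
  closed := (isOpen_bas h hA).isClosed_compl
  nonempty := hne
  inv := fun x => by
    rw [mem_compl_iff, mem_compl_iff, not_iff_not]
    have := bas_map (g := g) (φ := g) (fun _ => rfl) hA.inv (g.symm x)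
    rw [g.apply_symm_apply] at this
    exact this.symm
  sat := fun x hx y hxy hy => by
    obtain ⟨z, hz, hyz⟩ := hy
    exact hx ⟨z, hz, WS.trans (g := g) hxy hyz⟩

/-- a compact invariant set and a disjoint compact invariant set are not asymptotic -/
theorem not_asymp [CompactSpace X] {g : X ≃ₜ X} {A R : Set X} (hA : IsClosed A)
    (hR : IsClosed R) (hAi : ∀ x, g x ∈ A ↔ x ∈ A) (hRi : ∀ x, g x ∈ R ↔ x ∈ R)
    (hd : Disjoint A R) {a r : X} (ha : a ∈ A) (hr : r ∈ R) (h : WS g a r) : False := by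
  obtain ⟨ρ, hρ, h1⟩ := exists_pos_forall_lt_edist hA.isCompact hR hd
  obtain ⟨m, hm⟩ := h.eventually_lt (ε := ρ) (by exact_mod_cast hρ)
  have h4 := h1 _ ((inv_iter hAi m a).mpr ha) _ ((inv_iter hRi m r).mpr hr)
  rw [edist_dist, ← ENNReal.ofReal_coe_nnreal,
    ENNReal.ofReal_lt_ofReal_iff_of_nonneg ρ.coe_nonneg] at h4
  exact absurd (hm m le_rfl) (not_lt.mpr h4.le)

theorem rep_subset [CompactSpace X] {g : X ≃ₜ X} {c : ℝ} (h : LP g c) {A R : Set X}
    (hA : IsAtt g A) (hR : MinAtt g.symm R) (hne : (A ∩ R).Nonempty) : R ⊆ A := by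
  -- `R` is contained in the basin of `A`
  have hRB : R ⊆ Bas g A := by
    intro r hr
    by_contra hrB
    have h1 : IsAtt g.symm (Bas g A)ᶜ := compl_bas_att h hA ⟨r, hrB⟩
    have h2 := hR.subset_of_meet h1 ⟨r, hr, hrB⟩
    obtain ⟨p, hpA, hpR⟩ := hne
    exact h2 hpR (subset_bas g A hpA)
  intro r hr
  by_contra hrA
  obtain ⟨w, hw, hrw⟩ := exists_repeller h hA hrA
  have hd : Disjoint R (Bas g A)ᶜ := by
    rw [Set.disjoint_left]
    intro x hx hx'
    exact hx' (hRB hx)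
  have hRc : IsAtt g.symm (Bas g A)ᶜ := compl_bas_att h hA ⟨w, hw⟩
  exact not_asymp (g := g.symm) hR.1.closed hRc.closed hR.1.inv hRc.inv hd hr hw hrw

/-- A minimal attractor that meets a minimal repeller is everything. -/
theorem univ_of_meet [CompactSpace X] [ConnectedSpace X] {g : X ≃ₜ X} {c : ℝ} (h : LP g c)
    {A R : Set X} (hA : MinAtt g A) (hR : MinAtt g.symm R) (hne : (A ∩ R).Nonempty) :
    A = univ := by
  have h1 : R ⊆ A := rep_subset h hA.1 hR hne
  have hA' : MinAtt g.symm.symm A := hA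
  have h2 : A ⊆ R := rep_subset h.symm hR.1 hA' (by rwa [inter_comm])
  have h3 : A = R := h2.antisymm h1
  refine univ_of_sat h hA.1.closed hA.1.nonempty (fun x hx y hxy => ?_) hA.1.sat
  rw [h3] at hx ⊢
  exact hR.1.sat x hx y hxy

/-- In a nontransitive hyperbolic system all the minimal attractors are disjoint from all the
minimal repellers. -/
theorem disjoint_of_nontrans [CompactSpace X] [ConnectedSpace X] {g : X ≃ₜ X} {c : ℝ}
    (h : LP g c) (hnt : ¬ ∀ U V : Set X, IsOpen U → U.Nonempty → IsOpen V → V.Nonempty →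
      ∃ n : ℕ, (g^[n] '' U ∩ V).Nonempty) {A R : Set X} (hA : MinAtt g A)
    (hR : MinAtt g.symm R) : Disjoint A R := by
  by_contra hnd
  rw [Set.not_disjoint_iff_nonempty_inter] at hnd
  have h1 := univ_of_meet h hA hR hnd
  rw [h1] at hA
  exact hnt (trans_of_min_univ h hA)

theorem disjoint_tot [CompactSpace X] [ConnectedSpace X] {g : X ≃ₜ X} {c : ℝ}
    (h : LP g c) (hnt : ¬ ∀ U V : Set X, IsOpen U → U.Nonempty → IsOpen V → V.Nonempty →
      ∃ n : ℕ, (g^[n] '' U ∩ V).Nonempty) : Disjoint (Tot g) (Tot g.symm) := by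
  rw [Set.disjoint_left]
  rintro x ⟨A, hA, hxA⟩ ⟨R, hR, hxR⟩
  exact (Set.disjoint_left.mp (disjoint_of_nontrans h hnt hA hR)) hxA hxR

/-- Points that go from the repellers to the attractors are wandering, for every homeomorphism with
a power equal to `g`. -/
theorem wandering_nhds [CompactSpace X] [Nonempty X] {f g : X ≃ₜ X} {c : ℝ} (h : LP g c) {N : ℕ}
    (hN : 1 ≤ N) (hg : ∀ x, g x = f^[N] x) (hd : Disjoint (Tot g) (Tot g.symm)) {x : X}
    (hxA : x ∈ Bas g (Tot g)) (hxR : x ∈ Bas g.symm (Tot g.symm)) :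
    ∃ W : Set X, IsOpen W ∧ x ∈ W ∧ ∀ n : ℕ, 1 ≤ n → Disjoint (f^[n] '' W) W := by
  classical
  have hc : ∀ x, f (g x) = g (f x) := fun x => by
    rw [hg, hg, ← Function.iterate_succ_apply, ← Function.iterate_succ_apply' f]
  obtain ⟨hT, hTf⟩ := tot_att (φ := f) h hc
  have hR : IsAtt g.symm (Tot g.symm) := (tot_att (φ := g.symm) h.symm (fun _ => rfl)).1
  have hgk : ∀ k y, g^[k] y = f^[N * k] y := fun k y => by
    rw [Function.iterate_mul]
    congr 1
    funext z
    exact hg z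
  -- `x` is not in the total attractor
  have hx : x ∉ Tot g := by
    intro hx
    obtain ⟨r, hr, hxr⟩ := hxR
    exact not_asymp (g := g.symm) hT.closed hR.closed (inv_symm hT.inv) hR.inv hd hx hr hxr
  obtain ⟨ρ, hρ, hball⟩ : ∃ ρ > 0, ∀ y ∈ Tot g, ρ ≤ dist y x := by
    obtain ⟨ρ, hρ, h1⟩ := Metric.isOpen_iff.mp hT.closed.isOpen_compl x hx
    refine ⟨ρ, hρ, fun y hy => ?_⟩
    by_contra hlt
    push Not at hlt
    exact h1 hlt hy
  obtain ⟨δ, hδ, hnear⟩ := h.near
  obtain ⟨a, ha, hxa⟩ := hxA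
  obtain ⟨m, hm⟩ := hxa.eventually_lt hδ
  have h1 := hm m le_rfl
  set W₁ : Set X := {y | dist (g^[m] y) (g^[m] a) < δ} with hW₁
  have hW₁o : IsOpen W₁ :=
    isOpen_lt ((g.continuous.iterate m).dist continuous_const) continuous_const
  obtain ⟨η, hη, hunif⟩ := Pool.Agent.H789R2.GP.T1_unif f N (half_pos hρ)
  obtain ⟨n₀, hn₀⟩ := eventually_atTop.mp ((tendsto_order.mp (geo_tendsto c)).2 η hη)
  -- late iterates of points of `W₁` are close to the attractor
  have hlate : ∀ y ∈ W₁, ∀ k, N * (m + n₀) ≤ k → ρ / 2 < dist (f^[k] y) x := by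
    intro y hy k hk
    obtain ⟨z, hz, h2⟩ := hnear _ hT _ ((inv_iter hT.inv m a).mpr ha) _ hy
    have hkj : N * (k / N) + k % N = k := Nat.div_add_mod k N
    have hj : m + n₀ ≤ k / N := by
      rw [Nat.le_div_iff_mul_le (by omega)]
      rwa [Nat.mul_comm]
    obtain ⟨j, hj'⟩ := Nat.exists_eq_add_of_le hj
    have h3 : dist (g^[k / N] y) (g^[n₀ + j] z) < η := by
      have e1 : g^[k / N] y = g^[n₀ + j] (g^[m] y) := by
        rw [← Function.iterate_add_apply]
        congr 1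
        omega
      rw [e1]
      exact lt_of_le_of_lt (h.cS _ _ h2 (n₀ + j)) (hn₀ _ (by omega))
    have h4 := hunif (k % N) (Nat.mod_lt _ (by omega)).le _ _ h3
    have h5 : f^[k % N] (g^[k / N] y) = f^[k] y := by
      rw [hgk, ← Function.iterate_add_apply]
      congr 1
      omega
    rw [h5] at h4
    have h6 := hball _ ((inv_iter hTf (k % N) _).mpr ((inv_iter hT.inv (n₀ + j) z).mpr hz))
    have h7 := dist_triangle_left (f^[k % N] (g^[n₀ + j] z)) x (f^[k] y)
    linarith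
  -- `x` is not periodic
  have hper : ∀ k : ℕ, 1 ≤ k → f^[k] x ≠ x := by
    intro k hk hkx
    have h2 := hlate x h1 (k * (N * (m + n₀))) (Nat.le_mul_of_pos_left _ hk)
    rw [Function.iterate_mul, Function.iterate_fixed hkx, dist_self] at h2
    linarith
  have hloc : ∀ k : ℕ, 1 ≤ k → ∃ V : Set X, IsOpen V ∧ x ∈ V ∧ Disjoint (f^[k] '' V) V := by
    intro k hk
    obtain ⟨U₁, U₂, hU₁, hU₂, hx1, hx2, hdis⟩ := t2_separation (hper k hk)
    refine ⟨(f^[k]) ⁻¹' U₁ ∩ U₂, (hU₁.preimage (f.continuous.iterate k)).inter hU₂, ⟨hx1, hx2⟩, ?_⟩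
    rw [Set.disjoint_left]
    rintro _ ⟨y, hy, rfl⟩ hy'
    exact (Set.disjoint_left.mp hdis) hy.1 hy'.2
  choose V hVo hVx hVd using hloc
  set K := N * (m + n₀) + 1 with hK
  refine ⟨W₁ ∩ ball x (ρ / 2) ∩ ⋂ k ∈ Finset.range K, V (k + 1) (by omega),
    (hW₁o.inter isOpen_ball).inter (isOpen_biInter_finset fun k _ => hVo _ _),
    ⟨⟨h1, mem_ball_self (by linarith)⟩, mem_iInter₂.mpr fun k _ => hVx _ _⟩, ?_⟩
  intro n hn
  rw [Set.disjoint_left]
  rintro _ ⟨y, ⟨⟨hy1, hy2⟩, hy3⟩, rfl⟩ ⟨⟨hz1, hz2⟩, hz3⟩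
  rcases Nat.lt_or_ge (n - 1) K with hlt | hge
  · have hyV := mem_iInter₂.mp hy3 (n - 1) (Finset.mem_range.mpr hlt)
    have hzV := mem_iInter₂.mp hz3 (n - 1) (Finset.mem_range.mpr hlt)
    have hdn := hVd (n - 1 + 1) (by omega)
    have e : n - 1 + 1 = n := by omega
    refine (Set.disjoint_left.mp hdn) (a := f^[n] y) ⟨y, hyV, by rw [e]⟩ hzV
  · have h2 := hlate y hy1 n (by omega)
    rw [mem_ball] at hz2
    linarith

end Pool.Agent.Run7.h934.AD
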